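import Pool.Agent.Lib.P1346Q.Defs
import Pool.Agent.Lib.P1346e8.Lib

/-!
# The order is first-order definable
-/

set_option autoImplicit false

namespace P1346e8

namespace Q

universe u

variable {ι : Type u} {β υ : Type} {F : Fam ι β υ} {H e f lt : (i : ι) → F.X i → F.X i → Prop}

theorem def2_co (hH : F.Def2 H) : F.Def2 (fun i => co (H i)) :=
  Fam.Def.and (Fam.Def.not (Fam.Def.eq _ _ _)) (Fam.Def.not (Fam.Def2.at hH _ _))

theorem def3_Cl (hH : F.Def2 H) (n : ℕ) : F.Def3 (fun i => Cl (H i) n) := by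
  induction n with
  | zero => exact Fam.Def.or (Fam.Def.eq _ _ _) (Fam.Def.eq _ _ _)
  | succ n ih =>
    exact Fam.Def.or ih (Fam.Def.ex (Fam.Def.and (Fam.Def3.at ih _ _ _)
      (Fam.Def.and (Fam.Def2.at hH _ _) (Fam.Def.ex (Fam.Def.and (Fam.Def3.at ih _ _ _)
        (Fam.Def.not (Fam.Def2.at hH _ _)))))))

theorem def3_PtS (hH : F.Def2 H) (hf : F.Def2 f) (R n : ℕ) :
    F.Def3 (fun i => PtS (H i) (f i) R n) := by
  induction n with
  | zero => exact Fam.Def.eq _ _ _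
  | succ n ih =>
    exact Fam.Def.or (Fam.Def.eq _ _ _) (Fam.Def.ex (Fam.Def.and
      (Fam.Def3.at (def3_Cl hH R) _ _ _) (Fam.Def.and (Fam.Def2.at hf _ _)
        (Fam.Def3.at ih _ _ _))))

theorem def3_Dn (hH : F.Def2 H) (he : F.Def2 e) (R : ℕ) :
    F.Def3 (fun i => Dn (H i) (e i) R) :=
  Fam.Def.all (Fam.Def.imp (Fam.Def3.at (def3_Cl hH R) _ _ _) (Fam.Def2.at he _ _))

theorem def3_Fm {N : (i : ι) → F.X i → F.X i → F.X i → Prop} (he : F.Def2 e) (hN : F.Def3 N) :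
    F.Def3 (fun i x t v => Fm (e i) (N i x t) v) :=
  Fam.Def.and (Fam.Def.not hN) (Fam.Def.all (Fam.Def.imp (Fam.Def3.at hN _ _ _)
    (Fam.Def2.at he _ _)))

theorem def3_Lv {N : (i : ι) → F.X i → F.X i → F.X i → Prop} (he : F.Def2 e) (hN : F.Def3 N)
    (n : ℕ) : F.Def3 (fun i x t v => Lv (e i) (N i x t) n v) := by
  induction n with
  | zero => exact Fam.Def.and (Fam.Def.not hN) (Fam.Def.not (def3_Fm he hN))
  | succ n ih =>
    exact Fam.Def.or ih (Fam.Def.ex (Fam.Def.and (Fam.Def2.at he _ _)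
      (Fam.Def.and (Fam.Def.not (Fam.Def3.at hN _ _ _)) (Fam.Def3.at ih _ _ _))))

theorem def3_Form {N : (i : ι) → F.X i → F.X i → F.X i → Prop} (he : F.Def2 e) (hN : F.Def3 N)
    (L : ℕ) : F.Def3 (fun i x t v => Form (e i) (N i x t) L v) :=
  Fam.Def.and (def3_Fm he hN) (Fam.Def.not (def3_Lv he hN L))

theorem def2_Ser (hH : F.Def2 H) (hf : F.Def2 f) (R L : ℕ) :
    F.Def2 (fun i => Ser (H i) (f i) R L) :=
  Fam.Def.not (Fam.Def3.at (def3_PtS hH hf R L) _ _ _)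

theorem def3_Tf (hH : F.Def2 H) (hf : F.Def2 f) (R L : ℕ) :
    F.Def3 (fun i => Tf (H i) (f i) R L) :=
  Fam.Def.or
    (Fam.Def.and (Fam.Def2.at (def2_Ser hH hf R L) _ _)
      (def3_Form hf (def3_Dn hH hf R) L))
    (Fam.Def.and (Fam.Def.not (Fam.Def2.at (def2_Ser hH hf R L) _ _))
      (def3_Form hH (def3_Dn hH hH R) L))

theorem def3_Kf (hH : F.Def2 H) (hf : F.Def2 f) (R L : ℕ) :
    F.Def3 (fun i => Kf (H i) (f i) R L) :=
  Fam.Def.or (Fam.Def.eq _ _ _) (Fam.Def.not (Fam.Def3.at (def3_Tf hH hf R L) _ _ _))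

theorem def2_rho (hH : F.Def2 H) (hf : F.Def2 f) (hl : F.Def2 lt) (R L : ℕ) :
    F.Def2 (fun i => rho (H i) (f i) R L (lt i)) :=
  Fam.Def.and (Fam.Def.not (Fam.Def.eq _ _ _))
    (Fam.Def.ex (Fam.Def.and (Fam.Def3.at (def3_Kf hH hf R L) _ _ _)
      (Fam.Def.all (Fam.Def.imp (Fam.Def3.at (def3_Kf hH hf R L) _ _ _)
        (Fam.Def2.at hl _ _)))))

end Q

end P1346e8
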