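import Pool.Agent.Lib.P1346Q.CornQ
import Pool.Agent.Lib.P1346Q.DefQ
import Pool.Agent.Lib.P1346e8.Main

/-!
# Q1 for classes of ordered graphs whose pairs of parts have quotients of bounded degree
-/

set_option autoImplicit false

namespace P1346e8

namespace Q

/-- a strict linear order on a finite set is given by a numbering -/
theorem rank {V : Type} [Finite V] {r : V → V → Prop} (h : StrictLin (fun _ => True) r) :
    ∃ ν : V → ℕ, (∀ a b, ν a < ν b ↔ r a b) ∧ ∀ a b, ν a = ν b → a = b := by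
  classical
  have := Fintype.ofFinite V
  have hlt : ∀ a b, r a b → (Finset.univ.filter (fun z => r z a)).card <
      (Finset.univ.filter (fun z => r z b)).card := by
    intro a b hab
    refine Finset.card_lt_card ⟨?_, ?_⟩
    · intro z hz
      rw [Finset.mem_filter] at hz ⊢
      exact ⟨hz.1, h.2.1 z a b trivial trivial trivial hz.2 hab⟩
    · intro hs
      have h1 : a ∈ Finset.univ.filter (fun z => r z a) :=
        hs (Finset.mem_filter.2 ⟨Finset.mem_univ _, hab⟩)
      exact h.1 a trivial (Finset.mem_filter.1 h1).2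
  have hiff : ∀ a b, (Finset.univ.filter (fun z => r z a)).card <
      (Finset.univ.filter (fun z => r z b)).card ↔ r a b := by
    intro a b
    refine ⟨fun hab => ?_, hlt a b⟩
    by_contra hn
    by_cases he : a = b
    · subst he
      exact lt_irrefl _ hab
    · rcases h.2.2 a b trivial trivial he with h1 | h1
      · exact hn h1
      · exact lt_asymm hab (hlt b a h1)
  refine ⟨fun a => (Finset.univ.filter (fun z => r z a)).card, hiff, fun a b hab => ?_⟩
  by_contra hne
  have hab' : (Finset.univ.filter (fun z => r z a)).card =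
    (Finset.univ.filter (fun z => r z b)).card := hab
  rcases h.2.2 a b trivial trivial hne with h1 | h1
  · have := hlt a b h1
    omega
  · have := hlt b a h1
    omega

/-- The data of one graph. -/
theorem pair_data {V : Type} [Finite V] {H lt : V → V → Prop} {Δ : ℕ} (hB : BlockDec Δ H)
    (hs : ∀ u v, H u v → H v u) (hi : ∀ u, ¬ H u u) (hlt : StrictLin (fun _ => True) lt) :
    StrictLin (fun _ => True) (rho H (co H) (2 * Δ) (2 * Δ + 2) lt) ∧
      BicliqueFree (3 * (8 * (Δ + 1) + 2) + 3)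
        (Corner (fun _ => True) (rho H (co H) (2 * Δ) (2 * Δ + 2) lt) (fun _ => True)
          (rho H (co H) (2 * Δ) (2 * Δ + 2) lt) H) := by
  obtain ⟨ν, hν, hνi⟩ := rank hlt
  have h := cmp_co hs hi
  have e : rho H (co H) (2 * Δ) (2 * Δ + 2) lt = Rr H (co H) ν := by
    funext x y
    exact propext (rho_iff h hB le_rfl le_rfl hν x y)
  rw [e]
  exact ⟨rr_strict h hνi, corner_free h hB hνi le_rfl⟩

theorem final_quot (C : Set Str) (hC : ∀ A ∈ C, A.IsOrderedGraph) (N Δ : ℕ)
    (h : ∀ A ∈ C, ∃ κ : A.V → Fin N, ∀ α β, ∃ c : Prop,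
      BlockDec Δ (pairGraph (A.r 0) κ α β c)) :
    ∃ P : Set Str, IsPermClass P ∧ IsTransductionOf C P ∧ IsTransductionOf P C := by
  classical
  choose κ c hκ using fun i : C => h i.1 i.2
  let J : Type := Fin (Fintype.card (Fin N × Fin N))
  let en : J ≃ Fin N × Fin N := (Fintype.equivFin _).symm
  let M : J → (i : C) → i.1.V → i.1.V → Prop := fun j i =>
    pairGraph (i.1.r 0) (κ i) (en j).1 (en j).2 (c i (en j).1 (en j).2)
  have hV : ∀ i : C, Finite i.1.V := fun i => i.1.fin
  have hsym : ∀ (j : J) (i : C) (u v : i.1.V), M j i u v → M j i v u := by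
    rintro j i u v ⟨h1, h2, h3⟩
    refine ⟨h1.symm, ?_, ?_⟩
    · have e : i.1.r 0 v u ↔ i.1.r 0 u v := ⟨(hC i.1 i.2).2.1 v u, (hC i.1 i.2).2.1 u v⟩
      exact e.trans h2
    · rcases h3 with h3 | h3
      · exact Or.inr ⟨h3.2, h3.1⟩
      · exact Or.inl ⟨h3.2, h3.1⟩
  have hdat := fun (i : C) (j : J) =>
    pair_data (H := M j i) (hκ i (en j).1 (en j).2) (hsym j i) (fun u hu => hu.1 rfl)
      (hC i.1 i.2).2.2
  let U : (i : C) → (Fin N ⊕ (J ⊕ Unit)) → i.1.V → Prop := fun i u v => match u with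
    | .inl γ => κ i v = γ
    | .inr (.inl j) => c i (en j).1 (en j).2
    | .inr (.inr _) => True
  have hr : ∀ b, (baseFam (fun i : C => i.1) U).Def2 (fun i => i.1.r b) := fun b =>
    Fam.Def.bin (baseFam (fun i : C => i.1) U) b 0 1
  have hM : ∀ j, (baseFam (fun i : C => i.1) U).Def2 (M j) := fun j =>
    Fam.Def.and (Fam.Def.not (Fam.Def.eq _ 0 1))
      (Fam.Def.and (Fam.Def.iff (Fam.Def.bin (baseFam (fun i : C => i.1) U) 0 0 1)
        (Fam.Def.un (baseFam (fun i : C => i.1) U) (.inr (.inl j)) 0))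
        (Fam.Def.or
          (Fam.Def.and (Fam.Def.un (baseFam (fun i : C => i.1) U) (.inl (en j).1) 0)
            (Fam.Def.un (baseFam (fun i : C => i.1) U) (.inl (en j).2) 1))
          (Fam.Def.and (Fam.Def.un (baseFam (fun i : C => i.1) U) (.inl (en j).2) 0)
            (Fam.Def.un (baseFam (fun i : C => i.1) U) (.inl (en j).1) 1))))
  have hρ : ∀ j, (baseFam (fun i : C => i.1) U).Def2
      (fun i => rho (M j i) (co (M j i)) (2 * Δ) (2 * Δ + 2) (i.1.r 1)) := fun j =>
    def2_rho (hM j) (def2_co (hM j)) (hr 1) _ _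
  refine main_fam C hC (υ := Fin N ⊕ (J ⊕ Unit)) U (fun _ => .inr (.inr ()))
    (fun _ => .inr (.inr ()))
    (fun j i => rho (M j i) (co (M j i)) (2 * Δ) (2 * Δ + 2) (i.1.r 1))
    (fun j i => rho (M j i) (co (M j i)) (2 * Δ) (2 * Δ + 2) (i.1.r 1))
    M (fun j i x y _ => ⟨trivial, trivial⟩) (fun j i x y _ => ⟨trivial, trivial⟩)
    (fun j i x y _ => ⟨trivial, trivial⟩)
    (fun j i => (hdat i j).1) (fun j i => (hdat i j).1) hρ hρ hM
    (3 * (8 * (Δ + 1) + 2) + 3) (fun j i => (hdat i j).2) ?_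
  have h1 := Fam.Def.exFin (F := Asm.relFam C U M) (n := 2) (α := J)
    (Q := fun j i v => U i (.inl (en j).1) (v 0) ∧ U i (.inl (en j).2) (v 1) ∧ ¬ (v 0 = v 1) ∧
      (M j i (v 0) (v 1) ↔ U i (.inr (.inl j)) (v 0))) (by omega)
    fun j => Fam.Def.and (Fam.Def.un (Asm.relFam C U M) (.inl (en j).1) 0)
      (Fam.Def.and (Fam.Def.un (Asm.relFam C U M) (.inl (en j).2) 1)
        (Fam.Def.and (Fam.Def.not (Fam.Def.eq _ 0 1))
          (Fam.Def.iff (Fam.Def.bin (Asm.relFam C U M) (some j) 0 1)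
            (Fam.Def.un (Asm.relFam C U M) (.inr (.inl j)) 0))))
  refine h1.congr fun i v => ?_
  constructor
  · intro h0
    have hne : ¬ (v 0 = v 1) := by
      intro he
      rw [he] at h0
      exact (hC i.1 i.2).1 _ h0
    refine ⟨en.symm (κ i (v 0), κ i (v 1)), ?_⟩
    have e : en (en.symm (κ i (v 0), κ i (v 1))) = (κ i (v 0), κ i (v 1)) :=
      Equiv.apply_symm_apply _ _
    refine ⟨?_, ?_, hne, ?_⟩
    · change κ i (v 0) = (en (en.symm (κ i (v 0), κ i (v 1)))).1
      rw [e]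
    · change κ i (v 1) = (en (en.symm (κ i (v 0), κ i (v 1)))).2
      rw [e]
    · constructor
      · rintro ⟨_, h3, _⟩
        exact h3.1 h0
      · intro h3
        refine ⟨hne, iff_of_true h0 h3, ?_⟩
        left
        rw [e]
        exact ⟨rfl, rfl⟩
  · rintro ⟨j, h1, h2, h3, h4⟩
    change i.1.r 0 (v 0) (v 1)
    have h1' : κ i (v 0) = (en j).1 := h1
    have h2' : κ i (v 1) = (en j).2 := h2
    by_contra hn
    by_cases hc : c i (en j).1 (en j).2
    · exact hn ((h4.2 hc).2.1.2 hc)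
    · exact hc (h4.1 ⟨h3, iff_of_false hn hc, Or.inl ⟨h1', h2'⟩⟩)

end Q

end P1346e8
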