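import Pool.Agent.Lib.P1346Q.Deg

/-!
# The first-order description of the nodes is correct
-/

set_option autoImplicit false

namespace P1346e8

namespace Q

variable {V : Type} {e f H : V → V → Prop} {W K : V → Prop} {Δ : ℕ}

theorem fm_in (h : Cmp e f) {v : V} (hv : W v) : Fm e (Ne e W) v :=
  ⟨fun g => g.1 hv, fun _ hn => h.se _ _ (hn.2 v hv)⟩

theorem lv_in (h : Cmp e f) (hW : Mod e W) : ∀ n v, W v → ¬ Lv e (Ne e W) n v := by
  intro n
  induction n with
  | zero =>
    rintro v hv ⟨_, g⟩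
    exact g (fm_in h hv)
  | succ n ih =>
    rintro v hv (g | ⟨u, h1, h2, h3⟩)
    · exact ih v hv g
    · by_cases hu : W u
      · exact ih u hu h3
      · exact h2 ⟨hu, fun w hw => h.se _ _ (hW v w u hv hw hu h1)⟩

theorem form_in (h : Cmp e f) (hW : Mod e W) {v : V} (hv : W v) (L : ℕ) :
    Form e (Ne e W) L v := ⟨fm_in h hv, lv_in h hW L v hv⟩

theorem form_root (h : Cmp e f) (L : ℕ) (y : V) : Form e (Ne e (fun _ => True)) L y :=
  form_in h (fun _ _ _ _ _ hy => absurd trivial hy) trivial L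

/-- `W` is an `f`-component of the module `K`. -/
theorem formA (h : Cmp e f) (hK : Mod e K) {x : V} (hk : ∃ k, K k ∧ ¬ Cp f K x k)
    (L : ℕ) (y : V) : Form e (Ne e (Cp f K x)) L y ↔ Cp f K x y := by
  constructor
  · rintro ⟨⟨h1, h2⟩, _⟩
    by_contra hn
    have hne : ∀ k, K k → ¬ Cp f K x k → Ne e (Cp f K x) k := by
      intro k g1 g2
      refine ⟨g2, fun w hw => ?_⟩
      have hkw : k ≠ w := by
        rintro rfl
        exact g2 hw
      rw [h.ef k w hkw]
      intro hf
      exact g2 (hw.trans (Cp.step hw.2.1 g1 (h.sf _ _ hf)))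
    obtain ⟨k, g1, g2⟩ := hk
    have hyK : ¬ K y := fun g => h1 (hne y g hn)
    have hyk := h2 k (hne k g1 g2)
    exact h1 ⟨hn, fun w hw => h.se _ _ (hK k w y g1 hw.2.1 hyK (h.se _ _ hyk))⟩
  · intro hy
    exact form_in h (mod_cpf h hK x) hy L

theorem lv_mono {N : V → Prop} {n m : ℕ} (hnm : n ≤ m) {v : V} (hv : Lv e N n v) :
    Lv e N m v := by
  induction hnm with
  | refl => exact hv
  | step _ ih => exact Or.inl ih

/-- `W` is a block of the connected and co-connected module `K`. -/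
theorem formB (h : Cmp e f) (hK : Mod e K) (hKe : Conn e K) (hKf : Conn f K) {x : V}
    (hx : K x) (hk : ∃ k, K k ∧ ¬ SB e K x k) {L : ℕ} (hL : Δ ≤ L)
    (hJ : ∀ B : Finset V, (∀ b ∈ B, K b ∧ ¬ SB e K x b ∧
      ¬ Ne e (fun y => K y ∧ SB e K x y) b ∧ Fm e (Ne e (fun y => K y ∧ SB e K x y)) b) →
      Ind e K B → B.card ≤ Δ) (y : V) :
    Form e (Ne e (fun y => K y ∧ SB e K x y)) L y ↔ K y ∧ SB e K x y := by
  classical
  set W : V → Prop := fun y => K y ∧ SB e K x y with hWdef
  have hWm : Mod e W := sb_mod h hKe hKf x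
  have hxW : W x := ⟨hx, Or.inl rfl⟩
  constructor
  swap
  · intro hy
    exact form_in h hWm hy L
  rintro ⟨hF, hLv⟩
  by_contra hn
  obtain ⟨k, hk1, hk2⟩ := hk
  obtain ⟨a, b0, ha, hA, hb0, hB0, hab⟩ := conn_cut hKe W hx hk1 hxW (fun g => hk2 g.2)
  have hNb0 : Ne e W b0 := ⟨hB0, fun w hw => h.se _ _ (hWm a w b0 hA hw hB0 hab)⟩
  have fmK : ∀ v, Fm e (Ne e W) v → ¬ W v → K v := by
    rintro v ⟨g1, g2⟩ g3
    by_contra g4
    exact g1 ⟨g3, fun w hw => h.se _ _ (hK b0 w v hb0 hw.1 g4 (h.se _ _ (g2 b0 hNb0)))⟩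
  have key : ∀ n, n ≤ L + 1 → ∃ B : Finset V, B.card = n ∧ Ind e K B ∧ (0 < n → B.Nonempty) ∧
      ∀ b ∈ B, Fm e (Ne e W) b ∧ ¬ W b ∧ ¬ Lv e (Ne e W) (L + 1 - n) b := by
    intro n
    induction n with
    | zero =>
      intro _
      exact ⟨∅, rfl, fun b hb => absurd hb (Finset.notMem_empty b), fun g => absurd g (lt_irrefl 0),
        fun b hb => absurd hb (Finset.notMem_empty b)⟩
    | succ n ih =>
      intro hn'
      obtain ⟨B, c1, c2, c3, c4⟩ := ih (by omega)
      rcases Nat.eq_zero_or_pos n with hn0 | hn0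
      · refine ⟨{y}, by rw [Finset.card_singleton]; omega, ?_, fun _ => Finset.singleton_nonempty y,
          ?_⟩
        · intro b hb b' hb' hne
          rw [Finset.mem_singleton] at hb hb'
          exact absurd (hb.trans hb'.symm) hne
        · intro b hb
          rw [Finset.mem_singleton] at hb
          subst hb
          refine ⟨hF, hn, ?_⟩
          have : L + 1 - (n + 1) = L := by omega
          rw [this]
          exact hLv
      obtain ⟨b1, hb1⟩ := c3 hn0
      have hBK : ∀ b ∈ B, K b := fun b hb => fmK b (c4 b hb).1 (c4 b hb).2.1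
      have hxb : ∀ b ∈ B, ¬ SB e K x b := fun b hb g => (c4 b hb).2.1 ⟨hBK b hb, g⟩
      let U : V → Prop := fun z => W z ∨ (K z ∧ ∃ b ∈ B, SB e K b z)
      have hU : ¬ Mod e U := by
        intro hm
        refine hxb b1 hb1 (Or.inr ⟨U, hm, Or.inl hxW, Or.inr ⟨hBK b1 hb1, b1, hb1, Or.inl rfl⟩, ?_,
          b0, hb0, ?_⟩)
        · rintro z (g | g)
          · exact g.1
          · exact g.1
        · rintro (g | ⟨_, b, hb, g⟩)
          · exact hB0 g
          · have g2 : ¬ SB e K b x := fun g' => hxb b hb (sb_symm g')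
            have g3 : e b x := (blk_adj h hKe hKf (hBK b hb) hb0 g (fun g' => g2 g'.2)).2
              (hNb0.2 x hxW)
            exact (c4 b hb).1.1 ⟨(c4 b hb).2.1, fun w hw =>
              h.se _ _ (hWm x w b hxW hw (c4 b hb).2.1 (h.se _ _ g3))⟩
      unfold Mod at hU
      push Not at hU
      obtain ⟨u1, u2, z, k1, k2, hz, e1, e2⟩ := hU
      have hUK : ∀ u, U u → K u := by
        rintro u (g | g)
        · exact g.1
        · exact g.1
      have hzK : K z := by
        by_contra g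
        exact e2 (hK u1 u2 z (hUK u1 k1) (hUK u2 k2) g e1)
      have hzB : ∀ b ∈ B, ¬ SB e K b z := fun b hb g => hz (Or.inr ⟨hzK, b, hb, g⟩)
      have hzW : ¬ W z := fun g => hz (Or.inl g)
      have hzN : ¬ Ne e W z := by
        intro g
        rcases k2 with k2 | ⟨k2, b, hb, s2⟩
        · exact e2 (h.se _ _ (g.2 u2 k2))
        · have g1 : e b z := (c4 b hb).1.2 z g
          exact e2 ((blk_adj h hKe hKf (hBK b hb) k2 s2 (fun g' => hzB b hb g'.2)).1 g1)
      rcases k1 with k1 | ⟨k1, b, hb, s1⟩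
      · exact hzN ⟨hzW, fun w hw => h.se _ _ (hWm u1 w z k1 hw hzW e1)⟩ |>.elim
      · have g1 : e b z := (blk_adj h hKe hKf (hBK b hb) k1 s1 (fun g' => hzB b hb g'.2)).2 e1
        have hLz : ¬ Lv e (Ne e W) (L + 1 - (n + 1)) z := by
          intro g2
          have e3 : L + 1 - n = (L + 1 - (n + 1)) + 1 := by omega
          apply (c4 b hb).2.2
          rw [e3]
          exact Or.inr ⟨z, g1, hzN, g2⟩
        have hFz : Fm e (Ne e W) z := by
          by_contra g2
          exact hLz (lv_mono (Nat.zero_le _) ⟨hzN, g2⟩)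
        have hzn : z ∉ B := fun g => hzB z g (Or.inl rfl)
        refine ⟨insert z B, by rw [Finset.card_insert_of_notMem hzn, c1], c2.insert hzB,
          fun _ => Finset.insert_nonempty z B, ?_⟩
        intro b' hb'
        rw [Finset.mem_insert] at hb'
        rcases hb' with rfl | hb'
        · exact ⟨hFz, hzW, hLz⟩
        · refine ⟨(c4 b' hb').1, (c4 b' hb').2.1, fun g => (c4 b' hb').2.2 (lv_mono (by omega) g)⟩
  obtain ⟨B, c1, c2, _, c4⟩ := key (L + 1) le_rfl
  have := hJ B (fun b hb => ⟨fmK b (c4 b hb).1 (c4 b hb).2.1,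
    fun g => (c4 b hb).2.1 ⟨fmK b (c4 b hb).1 (c4 b hb).2.1, g⟩, (c4 b hb).1.1, (c4 b hb).1⟩) c2
  omega

theorem sb_cmp (h : Cmp e f) {x y : V} (hs : SB e K x y) : SB f K x y := by
  rcases hs with rfl | ⟨M, h1, h2⟩
  · exact Or.inl rfl
  · exact Or.inr ⟨M, mod_cmp h h1, h2⟩

theorem sb_cmp_iff (h : Cmp e f) {x y : V} : SB e K x y ↔ SB f K x y :=
  ⟨sb_cmp h, sb_cmp h.symm⟩

/-! ### The nodes -/

theorem wn_self (i : ℕ) (x : V) : Wn e f i x x := by
  induction i with
  | zero => trivial
  | succ i ih => exact bk_refl ih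

theorem wn_mod (h : Cmp e f) (i : ℕ) (x : V) : Mod e (Wn e f i x) := by
  induction i with
  | zero =>
    intro _ _ _ _ _ hy
    exact absurd trivial hy
  | succ i ih => exact bk_mod h ih x

theorem wn_sub {i : ℕ} {x y : V} (hxy : Wn e f (i + 1) x y) : Wn e f i x y := (bk_sub hxy).2

theorem wn_mono {i j : ℕ} (hij : i ≤ j) {x y : V} (hxy : Wn e f j x y) : Wn e f i x y := by
  induction hij with
  | refl => exact hxy
  | step _ ih => exact ih (wn_sub hxy)

theorem wn_eq (h : Cmp e f) {i : ℕ} {x y : V} (hxy : Wn e f i x y) : Wn e f i x = Wn e f i y := by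
  induction i with
  | zero => rfl
  | succ i ih =>
    have h1 := ih (wn_sub hxy)
    have h2 : Bk e f (Wn e f i x) x y := hxy
    funext z
    apply propext
    change Bk e f (Wn e f i x) x z ↔ Bk e f (Wn e f i y) y z
    rw [← h1]
    exact ⟨fun g => bk_trans h (bk_symm h h2) g, fun g => bk_trans h h2 g⟩

theorem wn_symm (h : Cmp e f) {i : ℕ} {x y : V} (hxy : Wn e f i x y) : Wn e f i y x := by
  rw [← wn_eq h hxy]
  exact wn_self i x

theorem wn_trans (h : Cmp e f) {i : ℕ} {x y z : V} (hxy : Wn e f i x y) (hyz : Wn e f i y z) :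
    Wn e f i x z := by
  rw [wn_eq h hxy]
  exact hyz

theorem exists_sep [Finite V] (h : Cmp e f) {x y : V} (hne : x ≠ y) : ∃ i, Sep e f i x y := by
  by_contra hn
  unfold Sep at hn
  push Not at hn
  have hall : ∀ i, Wn e f i x y := by
    intro i
    induction i with
    | zero => trivial
    | succ i ih => exact hn i ih
  have hc : ∀ i, Set.ncard {z | Wn e f i x z} + i ≤ Set.ncard {z | Wn e f 0 x z} := by
    intro i
    induction i with
    | zero => exact le_rfl
    | succ i ih =>
      obtain ⟨z, h1, h2⟩ := bk_ne (e := e) (f := f) h (wn_self i x) (hall i) hne.symm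
      have hlt : Set.ncard {z | Wn e f (i + 1) x z} < Set.ncard {z | Wn e f i x z} :=
        Set.ncard_lt_ncard ⟨fun w hw => wn_sub hw, fun g => h2 (g h1)⟩ (Set.toFinite _)
      omega
  have := hc (Set.ncard {z | Wn e f 0 x z} + 1)
  omega

theorem Sep.symm (h : Cmp e f) {i : ℕ} {x y : V} (hs : Sep e f i x y) : Sep e f i y x :=
  ⟨wn_symm h hs.1, fun g => hs.2 (wn_symm h g)⟩

theorem Sep.uniq {i j : ℕ} {x y : V} (hs : Sep e f i x y) (hs' : Sep e f j x y) : i = j := by
  rcases lt_trichotomy i j with g | g | g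
  · exact absurd (wn_mono g hs'.1) hs.2
  · exact g
  · exact absurd (wn_mono g hs.1) hs'.2

theorem Sep.ne {i : ℕ} {x y : V} (hs : Sep e f i x y) : x ≠ y := by
  rintro rfl
  exact hs.2 (wn_self _ _)

/-- A node of at least two elements is determined by its neighbours. -/
theorem node_form [Finite V] (h : Cmp H f) (hB : BlockDec Δ H) {L : ℕ} (hL : Δ ≤ L) (i : ℕ)
    {x t : V} (ht : Wn H f i x t) (hne : t ≠ x) :
    (Conn f (Wn H f i x) → ∀ y, Form H (Ne H (Wn H f i x)) L y ↔ Wn H f i x y) ∧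
    (¬ Conn f (Wn H f i x) → ∀ y, Form f (Ne f (Wn H f i x)) L y ↔ Wn H f i x y) := by
  cases i with
  | zero =>
    have e0 : Wn H f 0 x = fun _ => True := rfl
    rw [e0]
    exact ⟨fun _ y => ⟨fun _ => trivial, fun _ => form_root h L y⟩,
      fun _ y => ⟨fun _ => trivial, fun _ => form_root h.symm L y⟩⟩
  | succ i =>
    have hm := wn_mod h i x
    have hx : Wn H f i x x := wn_self i x
    obtain ⟨k, hk1, hk2⟩ := bk_ne (e := H) (f := f) h hx (wn_sub ht) hne
    by_cases hc : Conn f (Wn H f i x)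
    swap
    · have e1 : Wn H f (i + 1) x = Cp f (Wn H f i x) x := by
        funext y
        apply propext
        constructor
        · rintro (⟨_, g2⟩ | ⟨g, _, _⟩)
          · exact g2
          · exact absurd g hc
        · intro g1
          exact Or.inl ⟨hc, g1⟩
      rw [e1]
      have hkn : ¬ Cp f (Wn H f i x) x k := fun g => hk2 (Or.inl ⟨hc, g⟩)
      exact ⟨fun _ y => formA h hm ⟨k, hk1, hkn⟩ L y,
        fun g => absurd (conn_cp h.sf) g⟩
    by_cases hk : Conn f (Cp H (Wn H f i x) x)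
    swap
    · have e1 : Wn H f (i + 1) x = Cp H (Wn H f i x) x := by
        funext y
        apply propext
        constructor
        · rintro (⟨g, _⟩ | ⟨_, g2, _⟩)
          · exact absurd hc g
          · exact g2
        · intro g1
          exact Or.inr ⟨hc, g1, Or.inl hk⟩
      rw [e1]
      have hkn : ¬ Cp H (Wn H f i x) x k := fun g => hk2 (Or.inr ⟨hc, g, Or.inl hk⟩)
      exact ⟨fun g => absurd g hk,
        fun _ y => formA h.symm (mod_cmp h hm) ⟨k, hk1, hkn⟩ L y⟩
    · have e1 : Wn H f (i + 1) x =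
          fun y => Cp H (Wn H f i x) x y ∧ SB H (Cp H (Wn H f i x) x) x y := by
        funext y
        apply propext
        constructor
        · rintro (⟨g, _⟩ | ⟨_, g2, g3⟩)
          · exact absurd hc g
          · exact ⟨g2, g3.resolve_left (fun g => g hk)⟩
        · rintro ⟨g1, g2⟩
          exact Or.inr ⟨hc, g1, Or.inr g2⟩
      have hKe := conn_cp (W := Wn H f i x) h.se (x := x)
      have hKm := mod_cp hm x
      have hxK : Cp H (Wn H f i x) x x := Cp.refl hx
      have htK : Cp H (Wn H f i x) x t ∧ SB H (Cp H (Wn H f i x) x) x t := by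
        rw [e1] at ht
        exact ht
      obtain ⟨k', hk1', hk2'⟩ := sb_ne h hKe hk hxK htK.1 hne
      rw [e1]
      generalize hKK : Cp H (Wn H f i x) x = K at hk hKe hKm hxK htK hk1' hk2' ⊢
      constructor
      · intro _ y
        refine formB h hKm hKe hk hxK ⟨k', hk1', hk2'⟩ hL ?_ y
        intro B hBB hI
        -- a neighbour of the block inside `K`
        have hWm : Mod H (fun y => K y ∧ SB H K x y) := sb_mod h hKe hk x
        obtain ⟨a, b0, ha, hA, hb0, hB0, hab⟩ := conn_cut hKe (fun y => K y ∧ SB H K x y) hxK hk1'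
          ⟨hxK, Or.inl rfl⟩ (fun g => hk2' g.2)
        have hNb0 : Ne H (fun y => K y ∧ SB H K x y) b0 :=
          ⟨hB0, fun w hw => h.se _ _ (hWm a w b0 hA hw hB0 hab)⟩
        refine deg_K h hB hKm hk hb0 B ?_ hI
        intro b hb
        obtain ⟨g1, g2, g3, g4⟩ := hBB b hb
        refine ⟨g1, h.se _ _ (g4.2 b0 hNb0), ?_⟩
        intro g5
        apply g3
        have g6 : ¬ SB H K b x := fun g' => g2 (sb_symm g')
        have g7 : H b x := (blk_adj h hKe hk g1 hb0 (sb_symm g5) (fun g' => g6 g'.2)).2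
          (hNb0.2 x ⟨hxK, Or.inl rfl⟩)
        refine ⟨fun g => g2 g.2, fun w hw => ?_⟩
        exact h.se _ _ (hWm x w b ⟨hxK, Or.inl rfl⟩ hw (fun g => g2 g.2) (h.se _ _ g7))
      · intro _ y
        have e2 : (fun y => K y ∧ SB H K x y) = fun y => K y ∧ SB f K x y := by
          funext z
          rw [sb_cmp_iff h]
        rw [e2]
        refine formB h.symm (mod_cmp h hKm) hk hKe hxK
          ⟨k', hk1', fun g => hk2' (sb_cmp h.symm g)⟩ hL ?_ y
        intro B hBB hI
        have hWm : Mod f (fun y => K y ∧ SB f K x y) := sb_mod h.symm hk hKe x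
        refine deg_K h hB hKm hk hxK B ?_
          (fun b hb b' hb' hne g => hI b hb b' hb' hne (sb_cmp h g))
        intro b hb
        obtain ⟨g1, g2, g3, g4⟩ := hBB b hb
        refine ⟨g1, ?_, fun g => g2 (sb_cmp h g)⟩
        have hxb : x ≠ b := by
          rintro rfl
          exact g2 (Or.inl rfl)
        by_contra g5
        apply g3
        have g6 : f x b := (h.symm.ef x b hxb).2 g5
        exact ⟨fun g => g2 g.2, fun w hw =>
          h.sf _ _ (hWm x w b ⟨hxK, Or.inl rfl⟩ hw (fun g => g2 g.2) g6)⟩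

/-- The first-order description of the nodes is correct. -/
theorem tf_iff [Finite V] (h : Cmp H f) (hB : BlockDec Δ H) {R L : ℕ} (hR : 2 * Δ ≤ R)
    (hL : R + 2 ≤ L) {i : ℕ} {x t : V} (hs : Sep H f i x t) (y : V) :
    Tf H f R L x t y ↔ Wn H f i x y := by
  have hm := wn_mod h i x
  have hx : Wn H f i x x := wn_self i x
  have hxt : ¬ Bk H f (Wn H f i x) x t := hs.2
  have hnf := node_form h hB (L := L) (by omega) i hs.1 hs.ne.symm
  unfold Tf
  by_cases hc : Conn f (Wn H f i x)
  · have h1 : ¬ Ser H f R L x t := not_ser_of h hB hm hc hx hs.1 hxt (by omega) hL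
    have h2 : Dn H H R x t = Ne H (Wn H f i x) := by
      funext d
      exact propext (dn_sp h hB hm hc hx hs.1 hxt (by omega) d)
    rw [h2]
    constructor
    · rintro (g | g)
      · exact absurd g.1 h1
      · exact (hnf.1 hc y).1 g.2
    · intro g
      exact Or.inr ⟨h1, (hnf.1 hc y).2 g⟩
  · have h1 : Ser H f R L x t := ser_of h hm hc hx hs.1 hxt R L
    have h2 : Dn H f R x t = Ne f (Wn H f i x) := by
      funext d
      exact propext (dn_ser h hm hc hx hs.1 hxt R d)
    rw [h2]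
    constructor
    · rintro (g | g)
      · exact (hnf.2 hc y).1 g.2
      · exact absurd h1 g.1
    · intro g
      exact Or.inl ⟨h1, (hnf.2 hc y).2 g⟩

end Q

end P1346e8
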