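import Pool.Agent.Lib.P1346Q.Defs

/-!
# Modules and blocks
-/

set_option autoImplicit false

namespace P1346e8

namespace Q

variable {V : Type} {e f : V → V → Prop} {W K M M' : V → Prop}

theorem Cmp.symm (h : Cmp e f) : Cmp f e :=
  ⟨h.sf, h.se, h.jf, h.ie, fun u v hne => by rw [h.ef u v hne, not_not]⟩

theorem Cmp.ne_e (h : Cmp e f) {u v : V} (he : e u v) : u ≠ v := by
  rintro rfl
  exact h.ie _ he

theorem Cmp.ne_f (h : Cmp e f) {u v : V} (he : f u v) : u ≠ v := by
  rintro rfl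
  exact h.jf _ he

theorem cmp_co {H : V → V → Prop} (hs : ∀ u v, H u v → H v u) (hi : ∀ u, ¬ H u u) :
    Cmp H (co H) :=
  ⟨hs, fun u v h => ⟨h.1.symm, fun g => h.2 (hs _ _ g)⟩, hi, fun u h => h.1 rfl,
    fun u v hne => by
      unfold co
      constructor
      · intro h1 h2
        exact h2.2 h1
      · intro h1
        by_contra h2
        exact h1 ⟨hne, h2⟩⟩

theorem mod_cmp (h : Cmp e f) (hM : Mod e M) : Mod f M := by
  intro u v y hu hv hy hf
  by_contra hn
  have hvy : v ≠ y := by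
    rintro rfl
    exact hy hv
  have h1 : e v y := (h.ef v y hvy).2 hn
  have h2 := hM v u y hv hu hy h1
  exact (h.ef u y (h.ne_f hf)).1 h2 hf

theorem mod_union (hM : Mod e M) (hM' : Mod e M') {v0 : V} (h : M v0) (h' : M' v0) :
    Mod e (fun z => M z ∨ M' z) := by
  intro u v y hu hv hy hey
  have hy1 : ¬ M y := fun g => hy (Or.inl g)
  have hy2 : ¬ M' y := fun g => hy (Or.inr g)
  have h0 : e v0 y := by
    rcases hu with hu | hu
    · exact hM u v0 y hu h hy1 hey
    · exact hM' u v0 y hu h' hy2 hey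
  rcases hv with hv | hv
  · exact hM v0 v y h hv hy1 h0
  · exact hM' v0 v y h' hv hy2 h0

theorem Cp.refl {x : V} (hx : W x) : Cp e W x x := ⟨hx, hx, Relation.ReflTransGen.refl⟩

theorem Cp.trans {x y z : V} (h1 : Cp e W x y) (h2 : Cp e W y z) : Cp e W x z :=
  ⟨h1.1, h2.2.1, h1.2.2.trans h2.2.2⟩

theorem Cp.step {x y : V} (hx : W x) (hy : W y) (h : e x y) : Cp e W x y :=
  ⟨hx, hy, Relation.ReflTransGen.single ⟨hx, hy, h⟩⟩

theorem Cp.symm (hs : ∀ u v, e u v → e v u) {x y : V} (h : Cp e W x y) : Cp e W y x := by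
  refine ⟨h.2.1, h.1, ?_⟩
  have := h.2.2
  induction this with
  | refl => exact Relation.ReflTransGen.refl
  | tail _ h2 ih =>
    have h3 := ih ⟨h.1, h2.1, by assumption⟩
    exact (Relation.ReflTransGen.single ⟨h2.2.1, h2.1, hs _ _ h2.2.2⟩).trans h3

theorem Cp.closed {x y : V} (h : Cp e W x y) (A : V → Prop) (hx : A x)
    (hA : ∀ a b, W a → W b → A a → e a b → A b) : A y := by
  have := h.2.2
  induction this with
  | refl => exact hx
  | tail h1 h2 ih =>
    exact hA _ _ h2.1 h2.2.1 (ih ⟨h.1, h2.1, h1⟩) h2.2.2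

theorem Cp.eq (hs : ∀ u v, e u v → e v u) {x y : V} (h : Cp e W x y) : Cp e W x = Cp e W y := by
  funext z
  apply propext
  exact ⟨fun g => (h.symm hs).trans g, fun g => h.trans g⟩

/-- A component is connected. -/
theorem conn_cp (hs : ∀ u v, e u v → e v u) {x : V} : Conn e (Cp e W x) := by
  have key : ∀ y, Cp e W x y → Cp e (Cp e W x) x y := by
    intro y hy
    refine hy.closed (Cp e (Cp e W x) x) (Cp.refl (Cp.refl hy.1)) ?_
    intro a b ha hb h1 h2
    exact h1.trans (Cp.step h1.2.1 (h1.2.1.trans (Cp.step ha hb h2)) h2)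
  intro u v hu hv
  exact ((key u hu).symm hs).trans (key v hv)

theorem conn_cut (h : Conn e W) (A : V → Prop) {u v : V} (hu : W u) (hv : W v) (hAu : A u)
    (hAv : ¬ A v) : ∃ a b, W a ∧ A a ∧ W b ∧ ¬ A b ∧ e a b := by
  by_contra hn
  push Not at hn
  refine hAv ((h u v hu hv).closed A hAu ?_)
  intro a b ha hb h1 h2
  by_contra h3
  exact hn a b ha h1 hb h3 h2

theorem mod_cp (hW : Mod e W) (x : V) : Mod e (Cp e W x) := by
  intro u v y hu hv hy hey
  have hyW : ¬ W y := fun g => hy (hu.trans (Cp.step hu.2.1 g hey))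
  exact hW u v y hu.2.1 hv.2.1 hyW hey

theorem mod_cpf (h : Cmp e f) (hW : Mod e W) (x : V) : Mod e (Cp f W x) :=
  mod_cmp h.symm (mod_cp (mod_cmp h hW) x)

/-- Two modules strictly inside a connected and co-connected set that have a common element do not
cover it. -/
theorem union_ne (h : Cmp e f) (hKe : Conn e K) (hKf : Conn f K) (hM : Mod e M) (hM' : Mod e M')
    {v w1 w2 : V} (hv : M v) (hv' : M' v) (hvK : K v) (hw1 : K w1) (hw1' : ¬ M w1) (hw2 : K w2)
    (hw2' : ¬ M' w2) : ∃ w, K w ∧ ¬ (M w ∨ M' w) := by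
  by_contra hn
  push Not at hn
  have g1 : M' w1 := (hn w1 hw1).resolve_left hw1'
  obtain ⟨a, b, ha, hA, hb, hB, hab⟩ := conn_cut hKe (fun z => ¬ M' z) hw2 hvK hw2'
    (fun g => g hv')
  obtain ⟨a', b', ha', hA', hb', hB', hab'⟩ := conn_cut hKf (fun z => ¬ M' z) hw2 hvK hw2'
    (fun g => g hv')
  have hB1 : M' b := not_not.1 hB
  have hB1' : M' b' := not_not.1 hB'
  have hMa : M a := (hn a ha).resolve_right hA
  have hMa' : M a' := (hn a' ha').resolve_right hA'
  have s1 : e w1 a := hM' b w1 a hB1 g1 hA (h.se _ _ hab)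
  have s2 : e a' w1 := hM a a' w1 hMa hMa' hw1' (h.se _ _ s1)
  have s3 : e b' a' := hM' w1 b' a' g1 hB1' hA' (h.se _ _ s2)
  exact (h.ef a' b' (h.ne_f hab')).1 (h.se _ _ s3) hab'

theorem sb_symm {x y : V} (h : SB e K x y) : SB e K y x := by
  rcases h with rfl | ⟨M, h1, h2, h3, h4, h5⟩
  · exact Or.inl rfl
  · exact Or.inr ⟨M, h1, h3, h2, h4, h5⟩

theorem sb_trans (h : Cmp e f) (hKe : Conn e K) (hKf : Conn f K) {x y z : V}
    (h1 : SB e K x y) (h2 : SB e K y z) : SB e K x z := by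
  rcases h1 with rfl | ⟨M, a1, a2, a3, a4, w1, a5, a6⟩
  · exact h2
  rcases h2 with rfl | ⟨M', b1, b2, b3, b4, w2, b5, b6⟩
  · exact Or.inr ⟨M, a1, a2, a3, a4, w1, a5, a6⟩
  refine Or.inr ⟨fun z => M z ∨ M' z, mod_union a1 b1 a3 b2, Or.inl a2, Or.inr b3, ?_, ?_⟩
  · rintro z (g | g)
    · exact a4 z g
    · exact b4 z g
  · exact union_ne h hKe hKf a1 b1 a3 b2 (a4 y a3) a5 a6 b5 b6

theorem sb_mod (h : Cmp e f) (hKe : Conn e K) (hKf : Conn f K) (x : V) :
    Mod e (fun y => K y ∧ SB e K x y) := by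
  rintro u v y ⟨hu, hu'⟩ ⟨hv, hv'⟩ hy hey
  rcases sb_trans h hKe hKf (sb_symm hu') hv' with rfl | ⟨M, a1, a2, a3, a4, w1, a5, a6⟩
  · exact hey
  · refine a1 u v y a2 a3 ?_ hey
    intro g
    exact hy ⟨a4 y g, sb_trans h hKe hKf hu' (Or.inr ⟨M, a1, a2, g, a4, w1, a5, a6⟩)⟩

theorem mod_single (x : V) : Mod e (fun z => z = x) := by
  rintro u v y rfl rfl _ h
  exact h

/-- A block is not everything. -/
theorem sb_ne [Finite V] (h : Cmp e f) (hKe : Conn e K) (hKf : Conn f K) {x y : V} (hx : K x)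
    (hy : K y) (hne : y ≠ x) : ∃ z, K z ∧ ¬ SB e K x z := by
  classical
  let P : Set (Set V) := {M | Mod e (fun z => z ∈ M) ∧ x ∈ M ∧ (∀ z ∈ M, K z) ∧ ∃ w, K w ∧ w ∉ M}
  have hP : P.Nonempty := by
    refine ⟨{x}, ?_, rfl, ?_, y, hy, hne⟩
    · exact mod_single x
    · rintro z rfl
      exact hx
  obtain ⟨M, hMP, hmax⟩ := (Set.toFinite P).exists_maximalFor (fun M => Set.ncard M) P hP
  obtain ⟨m1, m2, m3, w, m4, m5⟩ := hMP
  refine ⟨w, m4, ?_⟩
  rintro (hxw | ⟨M', b1, b2, b3, b4, w2, b5, b6⟩)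
  · rw [hxw] at m2
    exact m5 m2
  · have hU : (M ∪ {z | M' z}) ∈ P := by
      refine ⟨mod_union m1 b1 m2 b2, Or.inl m2, ?_, ?_⟩
      · rintro z (g | g)
        · exact m3 z g
        · exact b4 z g
      · obtain ⟨w', g1, g2⟩ := union_ne h hKe hKf m1 b1 m2 b2 hx m4 m5 b5 b6
        exact ⟨w', g1, g2⟩
    have hle : Set.ncard (M ∪ {z | M' z}) ≤ Set.ncard M :=
      hmax hU (Set.ncard_le_ncard Set.subset_union_left (Set.toFinite _))
    have hlt : Set.ncard M < Set.ncard (M ∪ {z | M' z}) :=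
      Set.ncard_lt_ncard ⟨Set.subset_union_left, fun g => m5 (g (Or.inr b3))⟩ (Set.toFinite _)
    omega

/-! ### The blocks `Bk` -/

theorem bk_sub {x y : V} (hb : Bk e f W x y) : W x ∧ W y := by
  rcases hb with ⟨_, h⟩ | ⟨_, h, _⟩
  · exact ⟨h.1, h.2.1⟩
  · exact ⟨h.1, h.2.1⟩

theorem bk_refl {x : V} (hx : W x) : Bk e f W x x := by
  by_cases hc : Conn f W
  · exact Or.inr ⟨hc, Cp.refl hx, Or.inr (Or.inl rfl)⟩
  · exact Or.inl ⟨hc, Cp.refl hx⟩

theorem bk_symm (h : Cmp e f) {x y : V} (hb : Bk e f W x y) : Bk e f W y x := by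
  rcases hb with ⟨h1, h2⟩ | ⟨h1, h2, h3⟩
  · exact Or.inl ⟨h1, h2.symm h.sf⟩
  · refine Or.inr ⟨h1, h2.symm h.se, ?_⟩
    rw [← h2.eq h.se]
    rcases h3 with h3 | h3
    · exact Or.inl h3
    · exact Or.inr (sb_symm h3)

theorem bk_trans (h : Cmp e f) {x y z : V} (hb : Bk e f W x y) (hb' : Bk e f W y z) :
    Bk e f W x z := by
  rcases hb with ⟨h1, h2⟩ | ⟨h1, h2, h3⟩
  · rcases hb' with ⟨_, h2'⟩ | ⟨h1', _, _⟩
    · exact Or.inl ⟨h1, h2.trans h2'⟩
    · exact absurd h1' h1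
  · rcases hb' with ⟨h1', _⟩ | ⟨_, h2', h3'⟩
    · exact absurd h1 h1'
    · refine Or.inr ⟨h1, h2.trans h2', ?_⟩
      rw [← h2.eq h.se] at h3'
      by_cases hc : Conn f (Cp e W x)
      · have a := h3.resolve_left (fun g => g hc)
        have b := h3'.resolve_left (fun g => g hc)
        exact Or.inr (sb_trans h (conn_cp h.se) hc a b)
      · exact Or.inl hc

theorem bk_mod (h : Cmp e f) (hW : Mod e W) (x : V) : Mod e (Bk e f W x) := by
  by_cases hc : Conn f W
  · by_cases hk : Conn f (Cp e W x)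
    · have h1 : (Bk e f W x) = fun y => Cp e W x y ∧ SB e (Cp e W x) x y := by
        funext y
        apply propext
        constructor
        · rintro (⟨g, _⟩ | ⟨_, g2, g3⟩)
          · exact absurd hc g
          · exact ⟨g2, g3.resolve_left (fun g => g hk)⟩
        · rintro ⟨g1, g2⟩
          exact Or.inr ⟨hc, g1, Or.inr g2⟩
      rw [h1]
      exact sb_mod h (conn_cp h.se) hk x
    · have h1 : (Bk e f W x) = Cp e W x := by
        funext y
        apply propext
        constructor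
        · rintro (⟨g, _⟩ | ⟨_, g2, _⟩)
          · exact absurd hc g
          · exact g2
        · intro g1
          exact Or.inr ⟨hc, g1, Or.inl hk⟩
      rw [h1]
      exact mod_cp hW x
  · have h1 : (Bk e f W x) = Cp f W x := by
      funext y
      apply propext
      constructor
      · rintro (⟨_, g2⟩ | ⟨g, _, _⟩)
        · exact g2
        · exact absurd g hc
      · intro g1
        exact Or.inl ⟨hc, g1⟩
    rw [h1]
    exact mod_cpf h hW x

theorem bk_ne [Finite V] (h : Cmp e f) {x y : V} (hx : W x) (hy : W y) (hne : y ≠ x) :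
    ∃ z, W z ∧ ¬ Bk e f W x z := by
  by_cases hc : Conn f W
  · by_cases he : Conn e W
    · have hK : Cp e W x = W := by
        funext z
        apply propext
        exact ⟨fun g => g.2.1, fun g => he x z hx g⟩
      obtain ⟨z, h1, h2⟩ := sb_ne h he hc hx hy hne
      refine ⟨z, h1, ?_⟩
      rintro (⟨g, _⟩ | ⟨_, _, g3⟩)
      · exact g hc
      · rw [hK] at g3
        exact h2 (g3.resolve_left (fun g => g hc))
    · unfold Conn at he
      push Not at he
      obtain ⟨u, v, hu, hv, huv⟩ := he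
      by_cases h1 : Bk e f W x u
      · refine ⟨v, hv, fun h2 => huv ?_⟩
        rcases h1 with ⟨g, _⟩ | ⟨_, g2, _⟩
        · exact absurd hc g
        rcases h2 with ⟨g, _⟩ | ⟨_, g2', _⟩
        · exact absurd hc g
        exact (g2.symm h.se).trans g2'
      · exact ⟨u, hu, h1⟩
  · have he := hc
    unfold Conn at he
    push Not at he
    obtain ⟨u, v, hu, hv, huv⟩ := he
    by_cases h1 : Bk e f W x u
    · refine ⟨v, hv, fun h2 => huv ?_⟩
      rcases h1 with ⟨_, g2⟩ | ⟨g, _, _⟩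
      · rcases h2 with ⟨_, g2'⟩ | ⟨g, _, _⟩
        · exact (g2.symm h.sf).trans g2'
        · exact absurd g hc
      · exact absurd g hc
    · exact ⟨u, hu, h1⟩

/-- Different blocks of a node with disconnected complement are adjacent. -/
theorem bk_ser (h : Cmp e f) (hc : ¬ Conn f W) {u v : V} (hu : W u) (hv : W v)
    (hn : ¬ Bk e f W u v) : e u v := by
  have hne : u ≠ v := by
    rintro rfl
    exact hn (bk_refl hu)
  rw [h.ef u v hne]
  intro hf
  exact hn (Or.inl ⟨hc, Cp.step hu hv hf⟩)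

end Q

end P1346e8
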