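import Pool.Agent.Lib.P1346Q.Ord

/-!
# The corners
-/

set_option autoImplicit false

namespace P1346e8

namespace Q

variable {V : Type} {f H : V → V → Prop} {Δ : ℕ} {ν : V → ℕ}

/-- `y` is next after `x`. -/
abbrev Nx (H f : V → V → Prop) (ν : V → ℕ) (x y : V) : Prop :=
  Nxt (fun _ => True) (Rr H f ν) x y

theorem nx_le [Finite V] (h : Cmp H f) (hνi : ∀ a b, ν a = ν b → a = b) {x x' y : V}
    (hn : Nx H f ν x x') (hxy : Rr H f ν x y) : x' = y ∨ Rr H f ν x' y := by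
  by_cases he : x' = y
  · exact Or.inl he
  · rcases rr_total (ν := ν) h hνi he with g | g
    · exact Or.inr g
    · exact absurd ⟨hxy, g⟩ (hn.2.2.2 y trivial)

theorem nx_ge [Finite V] (h : Cmp H f) (hνi : ∀ a b, ν a = ν b → a = b) {x x' y : V}
    (hn : Nx H f ν x x') (hxy : Rr H f ν y x') : y = x ∨ Rr H f ν y x := by
  by_cases he : y = x
  · exact Or.inl he
  · rcases rr_total (ν := ν) h hνi he with g | g
    · exact Or.inr g
    · exact absurd ⟨g, hxy⟩ (hn.2.2.2 y trivial)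

theorem nx_inj [Finite V] (h : Cmp H f) (hνi : ∀ a b, ν a = ν b → a = b) {x y z : V}
    (hx : Nx H f ν x z) (hy : Nx H f ν y z) : x = y := by
  rcases nx_ge h hνi hx hy.2.2.1 with g | g
  · exact g.symm
  · rcases nx_ge h hνi hy hx.2.2.1 with g' | g'
    · exact g'
    · exact absurd g' (rr_asymm h g)

theorem nx_uniq [Finite V] (h : Cmp H f) (hνi : ∀ a b, ν a = ν b → a = b) {x y z : V}
    (hx : Nx H f ν x y) (hy : Nx H f ν x z) : y = z := by
  rcases nx_le h hνi hx hy.2.2.1 with g | g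
  · exact g
  · rcases nx_le h hνi hy hx.2.2.1 with g' | g'
    · exact g'.symm
    · exact absurd g' (rr_asymm h g)

/-- `y` is the last element of its node of level `i`. -/
theorem last_of [Finite V] (h : Cmp H f) (hνi : ∀ a b, ν a = ν b → a = b) {i : ℕ} {y y' z : V}
    (hn : Nx H f ν y y') (hc : ¬ Wn H f i y y') (hz : Wn H f i y z) : ¬ Rr H f ν y z := by
  intro g
  rcases nx_le h hνi hn g with rfl | g2
  · exact hc hz
  · exact hc (rr_convex h hn.2.2.1 g2 hz)

theorem first_of [Finite V] (h : Cmp H f) (hνi : ∀ a b, ν a = ν b → a = b) {i : ℕ} {y y' z : V}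
    (hn : Nx H f ν y y') (hc : ¬ Wn H f i y y') (hz : Wn H f i y' z) : ¬ Rr H f ν z y' := by
  intro g
  rcases nx_ge h hνi hn g with rfl | g2
  · exact hc (wn_symm h hz)
  · exact hc (wn_trans h (wn_symm h (rr_convex h g2 hn.2.2.1 (wn_symm h hz))) (wn_symm h hz))

theorem last_uniq [Finite V] (h : Cmp H f) (hνi : ∀ a b, ν a = ν b → a = b) {i : ℕ}
    {y1 y1' y2 y2' : V} (hn1 : Nx H f ν y1 y1') (hc1 : ¬ Wn H f i y1 y1') (hn2 : Nx H f ν y2 y2')
    (hc2 : ¬ Wn H f i y2 y2') (h12 : Wn H f i y1 y2) : y1 = y2 := by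
  by_contra hne
  rcases rr_total (ν := ν) h hνi hne with g | g
  · exact last_of h hνi hn1 hc1 h12 g
  · exact last_of h hνi hn2 hc2 (wn_symm h h12) g

theorem first_uniq [Finite V] (h : Cmp H f) (hνi : ∀ a b, ν a = ν b → a = b) {i : ℕ}
    {y1 y1' y2 y2' : V} (hn1 : Nx H f ν y1 y1') (hc1 : ¬ Wn H f i y1 y1') (hn2 : Nx H f ν y2 y2')
    (hc2 : ¬ Wn H f i y2 y2') (h12 : Wn H f i y1' y2') : y1 = y2 := by
  have he : y1' = y2' := by
    by_contra hne
    rcases rr_total (ν := ν) h hνi hne with g | g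
    · exact first_of h hνi hn2 hc2 (wn_symm h h12) g
    · exact first_of h hνi hn1 hc1 h12 g
  subst he
  exact nx_inj h hνi hn1 hn2

/-- At most two elements are at the ends of a node. -/
theorem edge_card [Finite V] (h : Cmp H f) (hνi : ∀ a b, ν a = ν b → a = b) {i : ℕ} {z : V}
    (Y : Finset V) (hY : ∀ y ∈ Y, ∃ y', Nx H f ν y y' ∧ ((Wn H f i z y ∧ ¬ Wn H f i z y') ∨
      (¬ Wn H f i z y ∧ Wn H f i z y'))) : Y.card ≤ 2 := by
  classical
  have h1 : (Y.filter fun y => Wn H f i z y).card ≤ 1 := by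
    rw [Finset.card_le_one]
    intro a ha b hb
    rw [Finset.mem_filter] at ha hb
    obtain ⟨a', a1, a2⟩ := hY a ha.1
    obtain ⟨b', b1, b2⟩ := hY b hb.1
    have a3 : ¬ Wn H f i z a' := by
      rcases a2 with g | g
      · exact g.2
      · exact absurd ha.2 g.1
    have b3 : ¬ Wn H f i z b' := by
      rcases b2 with g | g
      · exact g.2
      · exact absurd hb.2 g.1
    exact last_uniq h hνi a1 (fun g => a3 (wn_trans h ha.2 g)) b1
      (fun g => b3 (wn_trans h hb.2 g)) (wn_trans h (wn_symm h ha.2) hb.2)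
  have h2 : (Y.filter fun y => ¬ Wn H f i z y).card ≤ 1 := by
    rw [Finset.card_le_one]
    intro a ha b hb
    rw [Finset.mem_filter] at ha hb
    obtain ⟨a', a1, a2⟩ := hY a ha.1
    obtain ⟨b', b1, b2⟩ := hY b hb.1
    have a3 : Wn H f i z a' := by
      rcases a2 with g | g
      · exact absurd g.1 ha.2
      · exact g.2
    have b3 : Wn H f i z b' := by
      rcases b2 with g | g
      · exact absurd g.1 hb.2
      · exact g.2
    exact first_uniq h hνi a1 (fun g => ha.2 (wn_trans h a3 (wn_symm h g))) b1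
      (fun g => hb.2 (wn_trans h b3 (wn_symm h g))) (wn_trans h (wn_symm h a3) b3)
  have h3 := Finset.card_filter_add_card_filter_not (s := Y) (fun y => Wn H f i z y)
  omega

/-- The three kinds of corners. -/
theorem kinds (h : Cmp H f) {i j : ℕ} {x x' y y' : V} (hx : Sep H f i x x') (hy : Sep H f j y y')
    (h1 : ¬ ((H x y ↔ H x' y) ∧ (H x y' ↔ H x' y')))
    (h2 : ¬ ((H x y ↔ H x y') ∧ (H x' y ↔ H x' y'))) :
    (i = j ∧ Wn H f i x y) ∨
      ((Wn H f j y x ∧ ¬ Wn H f j y x') ∨ (¬ Wn H f j y x ∧ Wn H f j y x')) ∨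
      ((Wn H f i x y ∧ ¬ Wn H f i x y') ∨ (¬ Wn H f i x y ∧ Wn H f i x y')) := by
  have c1 : Wn H f i x y ∨ Wn H f i x y' := by
    by_contra hn
    push Not at hn
    apply h1
    have hm := wn_mod h i x
    exact ⟨⟨fun g => hm x x' y (wn_self i x) hx.1 hn.1 g, fun g => hm x' x y hx.1 (wn_self i x) hn.1 g⟩,
      ⟨fun g => hm x x' y' (wn_self i x) hx.1 hn.2 g,
        fun g => hm x' x y' hx.1 (wn_self i x) hn.2 g⟩⟩
  have c2 : Wn H f j y x ∨ Wn H f j y x' := by
    by_contra hn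
    push Not at hn
    apply h2
    have hm := wn_mod h j y
    exact ⟨⟨fun g => h.se _ _ (hm y y' x (wn_self j y) hy.1 hn.1 (h.se _ _ g)),
        fun g => h.se _ _ (hm y' y x hy.1 (wn_self j y) hn.1 (h.se _ _ g))⟩,
      ⟨fun g => h.se _ _ (hm y y' x' (wn_self j y) hy.1 hn.2 (h.se _ _ g)),
        fun g => h.se _ _ (hm y' y x' hy.1 (wn_self j y) hn.2 (h.se _ _ g))⟩⟩
  rcases lt_trichotomy i j with g | g | g
  · right
    left
    have hn : ¬ (Wn H f j y x ∧ Wn H f j y x') := fun g2 =>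
      hx.2 (wn_mono g (wn_trans h (wn_symm h g2.1) g2.2))
    by_cases g3 : Wn H f j y x
    · exact Or.inl ⟨g3, fun g4 => hn ⟨g3, g4⟩⟩
    · exact Or.inr ⟨g3, c2.resolve_left g3⟩
  · left
    refine ⟨g, ?_⟩
    rcases c1 with g1 | g1
    · exact g1
    · subst g
      exact wn_trans h g1 (wn_symm h hy.1)
  · right
    right
    have hn : ¬ (Wn H f i x y ∧ Wn H f i x y') := fun g2 =>
      hy.2 (wn_mono g (wn_trans h (wn_symm h g2.1) g2.2))
    by_cases g3 : Wn H f i x y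
    · exact Or.inl ⟨g3, fun g4 => hn ⟨g3, g4⟩⟩
    · exact Or.inr ⟨g3, c1.resolve_left g3⟩

/-- The element `y` or the next one is of type `τ`. -/
def Pt (H f : V → V → Prop) (ν : V → ℕ) (i : ℕ) (x : V) (Q : V → Prop) (s : Bool) (y : V) : Prop :=
  ∃ y', Nx H f ν y y' ∧ ¬ Wn H f (i + 1) y y' ∧ ((s = true ∧ Wn H f i x y ∧ Q y) ∨
    (s = false ∧ Wn H f i x y' ∧ Q y'))

/-- The elements of one type have representatives in different nodes. -/
theorem pt_reps [Finite V] (h : Cmp H f) (hνi : ∀ a b, ν a = ν b → a = b) {i : ℕ} {x : V}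
    {Q : V → Prop} {s : Bool} (Y : Finset V) (hY : ∀ y ∈ Y, Pt H f ν i x Q s y) :
    ∃ B : Finset V, B.card = Y.card ∧ (∀ b ∈ B, Wn H f i x b ∧ Q b) ∧
      ∀ b ∈ B, ∀ b' ∈ B, b ≠ b' → ¬ Wn H f (i + 1) b b' := by
  classical
  have hch : ∀ y : V, ∃ v : V, y ∈ Y → (∃ y', Nx H f ν y y' ∧ ¬ Wn H f (i + 1) y y' ∧
      ((s = true ∧ v = y) ∨ (s = false ∧ v = y'))) ∧ Wn H f i x v ∧ Q v := by
    intro y
    by_cases hy : y ∈ Y
    · obtain ⟨y', h1, h2, h3⟩ := hY y hy
      rcases h3 with ⟨g1, g2, g3⟩ | ⟨g1, g2, g3⟩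
      · exact ⟨y, fun _ => ⟨⟨y', h1, h2, Or.inl ⟨g1, rfl⟩⟩, g2, g3⟩⟩
      · exact ⟨y', fun _ => ⟨⟨y', h1, h2, Or.inr ⟨g1, rfl⟩⟩, g2, g3⟩⟩
    · exact ⟨y, fun g => absurd g hy⟩
  choose v hv using hch
  have key : ∀ a ∈ Y, ∀ b ∈ Y, a ≠ b → ¬ Wn H f (i + 1) (v a) (v b) := by
    intro a ha b hb hne hw
    obtain ⟨⟨a', a1, a2, a3⟩, _⟩ := hv a ha
    obtain ⟨⟨b', b1, b2, b3⟩, _⟩ := hv b hb
    rcases a3 with ⟨s1, a3⟩ | ⟨s1, a3⟩
    · rcases b3 with ⟨_, b3⟩ | ⟨s2, _⟩
      · rw [a3, b3] at hw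
        exact hne (last_uniq h hνi a1 a2 b1 b2 hw)
      · rw [s1] at s2
        cases s2
    · rcases b3 with ⟨s2, _⟩ | ⟨_, b3⟩
      · rw [s1] at s2
        cases s2
      · rw [a3, b3] at hw
        exact hne (first_uniq h hνi a1 a2 b1 b2 hw)
  refine ⟨Y.image v, ?_, ?_, ?_⟩
  · refine Finset.card_image_of_injOn ?_
    intro a ha b hb hab
    by_contra hne
    refine key a ha b hb hne ?_
    rw [hab]
    exact wn_self _ _
  · intro b hb
    rw [Finset.mem_image] at hb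
    obtain ⟨y, hy, rfl⟩ := hb
    exact (hv y hy).2
  · intro b hb b' hb' hne
    rw [Finset.mem_image] at hb hb'
    obtain ⟨y, hy, rfl⟩ := hb
    obtain ⟨y', hy', rfl⟩ := hb'
    refine key y hy y' hy' ?_
    rintro rfl
    exact hne rfl

theorem pt_one [Finite V] (h : Cmp H f) (hνi : ∀ a b, ν a = ν b → a = b) {i : ℕ} {x : V}
    {Q : V → Prop} {s : Bool} (hQ : ∃ z, ∀ v, Q v → Wn H f (i + 1) z v) (Y : Finset V)
    (hY : ∀ y ∈ Y, Pt H f ν i x Q s y) : Y.card ≤ 1 := by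
  obtain ⟨B, h1, h2, h3⟩ := pt_reps h hνi Y hY
  obtain ⟨z, hz⟩ := hQ
  rw [← h1, Finset.card_le_one]
  intro a ha b hb
  by_contra hne
  exact h3 a ha b hb hne (wn_trans h (wn_symm h (hz a (h2 a ha).2)) (hz b (h2 b hb).2))

theorem pt_deg [Finite V] (h : Cmp H f) (hB : BlockDec Δ H) (hνi : ∀ a b, ν a = ν b → a = b)
    {i : ℕ} {x z : V} (hz : Wn H f i x z) (hc : Conn f (Wn H f i x)) {Q : V → Prop} {s : Bool}
    (hQ : ∀ v, Q v → H z v ∧ ¬ Wn H f (i + 1) z v) (Y : Finset V)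
    (hY : ∀ y ∈ Y, Pt H f ν i x Q s y) : Y.card ≤ Δ := by
  obtain ⟨B, h1, h2, h3⟩ := pt_reps h hνi Y hY
  rw [← h1]
  have hbk : ∀ a b, Wn H f i x a → (Bk H f (Wn H f i x) a b ↔ Wn H f (i + 1) a b) := by
    intro a b ha
    change _ ↔ Bk H f (Wn H f i a) a b
    rw [wn_eq h ha]
  refine deg_W h hB (wn_mod h i x) hc hz B ?_ ?_
  · intro b hb
    obtain ⟨g1, g2⟩ := h2 b hb
    rw [hbk z b hz]
    exact ⟨g1, hQ b g2⟩
  · intro b hb b' hb' hne
    rw [hbk b b' (h2 b hb).1]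
    exact h3 b hb b' hb' hne

/-- The columns of the first kind in one row. -/
theorem kind1_card [Finite V] (h : Cmp H f) (hB : BlockDec Δ H)
    (hνi : ∀ a b, ν a = ν b → a = b) {i : ℕ} {x x' : V} (hx : Sep H f i x x') (Y : Finset V)
    (hY : ∀ y ∈ Y, ∃ y', Nx H f ν y y' ∧ Sep H f i y y' ∧ Wn H f i x y ∧
      ¬ ((H x y ↔ H x' y) ∧ (H x y' ↔ H x' y'))) : Y.card ≤ 8 * (Δ + 1) := by
  classical
  let Q : Fin 4 → V → Prop := fun τ v => match τ with
    | 0 => Wn H f (i + 1) x v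
    | 1 => Wn H f (i + 1) x' v
    | 2 => Conn f (Wn H f i x) ∧ H x v ∧ ¬ Wn H f (i + 1) x v
    | 3 => Conn f (Wn H f i x) ∧ H x' v ∧ ¬ Wn H f (i + 1) x' v
  have hQ : ∀ v, Wn H f i x v → ¬ (H x v ↔ H x' v) → ∃ τ, Q τ v := by
    intro v hv hne
    by_cases h0 : Wn H f (i + 1) x v
    · exact ⟨0, h0⟩
    by_cases h1 : Wn H f (i + 1) x' v
    · exact ⟨1, h1⟩
    by_cases hc : Conn f (Wn H f i x)
    · by_cases h2 : H x v
      · exact ⟨2, hc, h2, h0⟩
      · by_cases h3 : H x' v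
        · exact ⟨3, hc, h3, h1⟩
        · exact absurd (iff_of_false h2 h3) hne
    · exfalso
      have h0' : ¬ Bk H f (Wn H f i x) x v := h0
      have h1' : ¬ Bk H f (Wn H f i x) x' v := by
        intro g
        apply h1
        change Bk H f (Wn H f i x') x' v
        rw [← wn_eq h hx.1]
        exact g
      exact hne (iff_of_true (bk_ser h hc (wn_self i x) hv h0') (bk_ser h hc hx.1 hv h1'))
  have hsub : Y ⊆ (Finset.univ : Finset (Bool × Fin 4)).biUnion
      (fun p => Y.filter fun y => Pt H f ν i x (Q p.2) p.1 y) := by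
    intro y hy
    rw [Finset.mem_biUnion]
    obtain ⟨y', h1, h2, h3, h4⟩ := hY y hy
    by_cases g : (H x y ↔ H x' y)
    · have g2 : ¬ (H x y' ↔ H x' y') := fun g' => h4 ⟨g, g'⟩
      have h5 : Wn H f i x y' := wn_trans h h3 h2.1
      obtain ⟨τ, hτ⟩ := hQ y' h5 g2
      exact ⟨(false, τ), Finset.mem_univ _, Finset.mem_filter.2 ⟨hy, y', h1, h2.2,
        Or.inr ⟨rfl, h5, hτ⟩⟩⟩
    · obtain ⟨τ, hτ⟩ := hQ y h3 g
      exact ⟨(true, τ), Finset.mem_univ _, Finset.mem_filter.2 ⟨hy, y', h1, h2.2,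
        Or.inl ⟨rfl, h3, hτ⟩⟩⟩
  have hcard : ∀ p ∈ (Finset.univ : Finset (Bool × Fin 4)),
      (Y.filter fun y => Pt H f ν i x (Q p.2) p.1 y).card ≤ Δ + 1 := by
    rintro ⟨s, τ⟩ _
    have hf : ∀ y ∈ (Y.filter fun y => Pt H f ν i x (Q τ) s y), Pt H f ν i x (Q τ) s y :=
      fun y hy => (Finset.mem_filter.1 hy).2
    fin_cases τ
    · have := pt_one h hνi ⟨x, fun v hv => hv⟩ _ hf
      exact this.trans (by omega)
    · have := pt_one h hνi ⟨x', fun v hv => hv⟩ _ hf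
      exact this.trans (by omega)
    · by_cases hc : Conn f (Wn H f i x)
      · have := pt_deg h hB hνi (wn_self i x) hc (fun v hv => hv.2) _ hf
        exact this.trans (by omega)
      · have : (Y.filter fun y => Pt H f ν i x (Q 2) s y) = ∅ := by
          rw [Finset.eq_empty_iff_forall_notMem]
          intro y hy
          obtain ⟨y', _, _, g⟩ := hf y hy
          rcases g with g | g
          · exact hc g.2.2.1
          · exact hc g.2.2.1
        change (Y.filter fun y => Pt H f ν i x (Q 2) s y).card ≤ Δ + 1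
        rw [this]
        simp
    · by_cases hc : Conn f (Wn H f i x)
      · have := pt_deg h hB hνi hx.1 hc (fun v hv => hv.2) _ hf
        exact this.trans (by omega)
      · have : (Y.filter fun y => Pt H f ν i x (Q 3) s y) = ∅ := by
          rw [Finset.eq_empty_iff_forall_notMem]
          intro y hy
          obtain ⟨y', _, _, g⟩ := hf y hy
          rcases g with g | g
          · exact hc g.2.2.1
          · exact hc g.2.2.1
        change (Y.filter fun y => Pt H f ν i x (Q 3) s y).card ≤ Δ + 1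
        rw [this]
        simp
  have h1 := (Finset.card_le_card hsub).trans (Finset.card_biUnion_le_card_mul _ _ _ hcard)
  have h2 : (Finset.univ : Finset (Bool × Fin 4)).card = 8 := by decide
  rw [h2] at h1
  exact h1

/-- The corner relation contains no large complete bipartite graph. -/
theorem corner_free [Finite V] (h : Cmp H f) (hB : BlockDec Δ H)
    (hνi : ∀ a b, ν a = ν b → a = b) {T : ℕ} (hT : 3 * (8 * (Δ + 1) + 2) + 3 ≤ T) :
    BicliqueFree T (Corner (fun _ => True) (Rr H f ν) (fun _ => True) (Rr H f ν) H) := by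
  classical
  rintro ⟨p, q, hp, hq, hC⟩
  let Y : Finset V := Finset.univ.image q
  have hYc : Y.card = T := by
    rw [Finset.card_image_of_injective _ hq, Finset.card_univ, Fintype.card_fin]
  have hbad : ∀ k : Fin T, ∃ D : Finset V, D ⊆ Y ∧ D.card ≤ 8 * (Δ + 1) + 2 ∧
      ∀ y ∈ Y, y ∉ D → ∃ x', Nx H f ν (p k) x' ∧ ∃ y' j, Nx H f ν y y' ∧ Sep H f j y y' ∧
        ((Wn H f j y (p k) ∧ ¬ Wn H f j y x') ∨ (¬ Wn H f j y (p k) ∧ Wn H f j y x')) := by
    intro k
    obtain ⟨x', _, hx', _⟩ := hC k k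
    obtain ⟨i, hi⟩ := exists_sep h (x := p k) (y := x') (fun g => by
      have := hx'.2.2.1
      rw [← g] at this
      exact rr_irrefl _ this)
    let P1 : V → Prop := fun y => ∃ y', Nx H f ν y y' ∧ Sep H f i y y' ∧ Wn H f i (p k) y ∧
      ¬ ((H (p k) y ↔ H x' y) ∧ (H (p k) y' ↔ H x' y'))
    let P3 : V → Prop := fun y => ∃ y', Nx H f ν y y' ∧
      ((Wn H f i (p k) y ∧ ¬ Wn H f i (p k) y') ∨ (¬ Wn H f i (p k) y ∧ Wn H f i (p k) y'))
    refine ⟨Y.filter P1 ∪ Y.filter P3, Finset.union_subset (Finset.filter_subset _ _)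
      (Finset.filter_subset _ _), ?_, ?_⟩
    · have c1 := kind1_card h hB hνi hi (Y.filter P1) (fun y hy => (Finset.mem_filter.1 hy).2)
      have c3 := edge_card h hνi (i := i) (z := p k) (Y.filter P3)
        (fun y hy => (Finset.mem_filter.1 hy).2)
      exact (Finset.card_union_le _ _).trans (by omega)
    · intro y hy hyD
      rw [Finset.mem_union, Finset.mem_filter, Finset.mem_filter] at hyD
      push Not at hyD
      have hyq : ∃ l, q l = y := by
        rw [Finset.mem_image] at hy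
        obtain ⟨l, _, hl⟩ := hy
        exact ⟨l, hl⟩
      obtain ⟨l, rfl⟩ := hyq
      obtain ⟨x'', y', k1, k2, k3, k4⟩ := hC k l
      have e : x'' = x' := nx_uniq h hνi k1 hx'
      subst e
      obtain ⟨j, hj⟩ := exists_sep h (x := q l) (y := y') (fun g => by
        have := k2.2.2.1
        rw [← g] at this
        exact rr_irrefl _ this)
      refine ⟨x'', hx', y', j, k2, hj, ?_⟩
      rcases kinds h hi hj k3 k4 with ⟨g1, g2⟩ | g | g
      · subst g1
        exact absurd ⟨y', k2, hj, g2, k3⟩ (hyD.1 hy)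
      · exact g
      · exact absurd ⟨y', k2, g⟩ (hyD.2 hy)
  choose D hD1 hD2 hD3 using hbad
  have hT3 : 3 ≤ T := by omega
  let k0 : Fin T := ⟨0, by omega⟩
  let k1 : Fin T := ⟨1, by omega⟩
  let k2 : Fin T := ⟨2, by omega⟩
  obtain ⟨y, hy, hyD⟩ : ∃ y ∈ Y, y ∉ D k0 ∪ D k1 ∪ D k2 := by
    by_contra hn
    push Not at hn
    have c1 := Finset.card_le_card (show Y ⊆ D k0 ∪ D k1 ∪ D k2 from hn)
    have c2 := Finset.card_union_le (D k0 ∪ D k1) (D k2)
    have c3 := Finset.card_union_le (D k0) (D k1)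
    have c4 := hD2 k0
    have c5 := hD2 k1
    have c6 := hD2 k2
    omega
  rw [Finset.mem_union, Finset.mem_union] at hyD
  push Not at hyD
  obtain ⟨x0, a0, y0, j0, b0, c0, d0⟩ := hD3 k0 y hy hyD.1.1
  obtain ⟨x1, a1, y1, j1, b1, c1, d1⟩ := hD3 k1 y hy hyD.1.2
  obtain ⟨x2, a2, y2, j2, b2, c2, d2⟩ := hD3 k2 y hy hyD.2
  have e1 : y1 = y0 := nx_uniq h hνi b1 b0
  have e2 : y2 = y0 := nx_uniq h hνi b2 b0
  subst e1 e2
  have f1 : j1 = j0 := c1.uniq c0
  have f2 : j2 = j0 := c2.uniq c0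
  subst f1 f2
  have hcard := edge_card h hνi (i := j2) (z := y) ({p k0, p k1, p k2} : Finset V) (by
    intro v hv
    rw [Finset.mem_insert, Finset.mem_insert, Finset.mem_singleton] at hv
    rcases hv with rfl | rfl | rfl
    · exact ⟨x0, a0, d0⟩
    · exact ⟨x1, a1, d1⟩
    · exact ⟨x2, a2, d2⟩)
  have g01 : p k0 ≠ p k1 := fun g => by
    have := congrArg Fin.val (hp g)
    simp [k0, k1] at this
  have g02 : p k0 ≠ p k2 := fun g => by
    have := congrArg Fin.val (hp g)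
    simp [k0, k2] at this
  have g12 : p k1 ≠ p k2 := fun g => by
    have := congrArg Fin.val (hp g)
    simp [k1, k2] at this
  have h3 : ({p k0, p k1, p k2} : Finset V).card = 3 := by
    rw [Finset.card_eq_three]
    exact ⟨_, _, _, g01, g02, g12, rfl⟩
  omega

end Q

end P1346e8
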