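import Pool.Agent.Lib.P1346e8.Defs

/-!
# Graphs whose quotients have bounded degree: modules, canonical decomposition, first-order description
-/

set_option autoImplicit false

namespace P1346e8

/-- Every set `W` of at least two vertices can be divided into at least two blocks such that the adjacency
between any two different blocks is constant and either any two different blocks are adjacent or every block
is adjacent to at most `Δ` other blocks. -/
def BlockDec {V : Type} (Δ : ℕ) (H : V → V → Prop) : Prop :=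
  ∀ W : V → Prop, (∃ u v, W u ∧ W v ∧ u ≠ v) → ∃ b : V → ℕ, (∃ u v, W u ∧ W v ∧ b u ≠ b v) ∧
    (∀ u u' v v', W u → W u' → W v → W v' → b u = b u' → b v = b v' → b u ≠ b v →
      (H u v ↔ H u' v')) ∧
    ((∀ u v, W u → W v → b u ≠ b v → H u v) ∨
      ∀ u, W u → Set.ncard {n | n ≠ b u ∧ ∃ v, W v ∧ b v = n ∧ H u v} ≤ Δ)

/-- The graph of the edges (`c` true) or non-edges (`c` false) of `E` between the parts `α` and `β` of the
vertex partition `κ`. -/
def pairGraph {V : Type} {N : ℕ} (E : V → V → Prop) (κ : V → Fin N) (α β : Fin N) (c : Prop)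
    (u v : V) : Prop :=
  u ≠ v ∧ (E u v ↔ c) ∧ ((κ u = α ∧ κ v = β) ∨ (κ u = β ∧ κ v = α))

namespace Q

variable {V : Type}

/-- Complementary graphs. -/
structure Cmp (e f : V → V → Prop) : Prop where
  se : ∀ u v, e u v → e v u
  sf : ∀ u v, f u v → f v u
  ie : ∀ u, ¬ e u u
  jf : ∀ u, ¬ f u u
  ef : ∀ u v, u ≠ v → (e u v ↔ ¬ f u v)

/-- The complement. -/
def co (H : V → V → Prop) (u v : V) : Prop := u ≠ v ∧ ¬ H u v

/-- Modules. -/
def Mod (e : V → V → Prop) (M : V → Prop) : Prop := ∀ u v y, M u → M v → ¬ M y → e u y → e v y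

/-- `u` and `v` are joined inside `W`. -/
def Cp (e : V → V → Prop) (W : V → Prop) (u v : V) : Prop :=
  W u ∧ W v ∧ Relation.ReflTransGen (fun a b => W a ∧ W b ∧ e a b) u v

/-- `W` is connected. -/
def Conn (e : V → V → Prop) (W : V → Prop) : Prop := ∀ u v, W u → W v → Cp e W u v

/-- `x` and `y` are in a module strictly inside `K`. -/
def SB (e : V → V → Prop) (K : V → Prop) (x y : V) : Prop :=
  x = y ∨ ∃ M : V → Prop, Mod e M ∧ M x ∧ M y ∧ (∀ z, M z → K z) ∧ ∃ w, K w ∧ ¬ M w

/-- The blocks of `W`. -/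
def Bk (e f : V → V → Prop) (W : V → Prop) (x y : V) : Prop :=
  (¬ Conn f W ∧ Cp f W x y) ∨
    (Conn f W ∧ Cp e W x y ∧ (¬ Conn f (Cp e W x) ∨ SB e (Cp e W x) x y))

/-- The node of `x` on level `i`. -/
def Wn (e f : V → V → Prop) : ℕ → V → V → Prop
  | 0, _, _ => True
  | i + 1, x, y => Bk e f (Wn e f i x) x y

/-- `x` and `y` are separated after level `i`. -/
def Sep (e f : V → V → Prop) (i : ℕ) (x y : V) : Prop := Wn e f i x y ∧ ¬ Wn e f (i + 1) x y

/-! ### The first-order description -/

/-- `n` steps of the closure of `{x, t}` under distinguishing vertices. -/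
def Cl (H : V → V → Prop) : ℕ → V → V → V → Prop
  | 0, x, t, z => z = x ∨ z = t
  | n + 1, x, t, z => Cl H n x t z ∨
      ∃ a, Cl H n x t a ∧ H z a ∧ ∃ b, Cl H n x t b ∧ ¬ H z b

/-- `u` and `t` are joined by at most `n` steps of `f` inside the closure. -/
def PtS (H f : V → V → Prop) (R : ℕ) : ℕ → V → V → V → Prop
  | 0, _, t, u => u = t
  | n + 1, x, t, u => u = t ∨ ∃ w, Cl H R x t w ∧ f u w ∧ PtS H f R n x t w

/-- `d` is adjacent to the whole closure. -/
def Dn (H e : V → V → Prop) (R : ℕ) (x t d : V) : Prop := ∀ c, Cl H R x t c → e d c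

/-- The vertices outside `N` that are adjacent to all of `N`. -/
def Fm (e : V → V → Prop) (N : V → Prop) (v : V) : Prop := ¬ N v ∧ ∀ n, N n → e v n

/-- From `v` one can leave `Fm e N` by at most `n` steps outside `N`. -/
def Lv (e : V → V → Prop) (N : V → Prop) : ℕ → V → Prop
  | 0, v => ¬ N v ∧ ¬ Fm e N v
  | n + 1, v => Lv e N n v ∨ ∃ u, e v u ∧ ¬ N u ∧ Lv e N n u

/-- The module described by its set of neighbours. -/
def Form (e : V → V → Prop) (N : V → Prop) (L : ℕ) (v : V) : Prop := Fm e N v ∧ ¬ Lv e N L v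

/-- The node where `x` and `t` are separated has a disconnected complement. -/
def Ser (H f : V → V → Prop) (R L : ℕ) (x t : V) : Prop := ¬ PtS H f R L x t x

/-- The node where `x` and `t` are separated. -/
def Tf (H f : V → V → Prop) (R L : ℕ) (x t y : V) : Prop :=
  (Ser H f R L x t ∧ Form f (Dn H f R x t) L y) ∨
    (¬ Ser H f R L x t ∧ Form H (Dn H H R x t) L y)

/-- The block of `x` in the node where `x` and `y` are separated. -/
def Kf (H f : V → V → Prop) (R L : ℕ) (x y z : V) : Prop := z = x ∨ ¬ Tf H f R L x z y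

/-- The order of the vertices. -/
def rho (H f : V → V → Prop) (R L : ℕ) (lt : V → V → Prop) (x y : V) : Prop :=
  x ≠ y ∧ ∃ a, Kf H f R L x y a ∧ ∀ b, Kf H f R L y x b → lt a b

/-- The set of the outside neighbours of a module. -/
def Ne (e : V → V → Prop) (W : V → Prop) (d : V) : Prop := ¬ W d ∧ ∀ w, W w → e d w

end Q

end P1346e8
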