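import Pool.Agent.Lib.P1346Q.Mods

/-!
# Degrees in quotients; growth of the closure
-/

set_option autoImplicit false

namespace P1346e8

namespace Q

variable {V : Type} {H f : V → V → Prop} {W K : V → Prop} {Δ : ℕ}

/-- Different elements are in different blocks of `K`. -/
def Ind (e : V → V → Prop) (K : V → Prop) (B : Finset V) : Prop :=
  ∀ b ∈ B, ∀ b' ∈ B, b ≠ b' → ¬ SB e K b b'

theorem Ind.subset {e : V → V → Prop} {B B' : Finset V} (h : Ind e K B) (hs : B' ⊆ B) :
    Ind e K B' := fun b hb b' hb' => h b (hs hb) b' (hs hb')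

theorem Ind.eq {e : V → V → Prop} {B : Finset V} (h : Ind e K B) {b b' : V} (hb : b ∈ B)
    (hb' : b' ∈ B) (hs : SB e K b b') : b = b' := by
  by_contra hne
  exact h b hb b' hb' hne hs

theorem Ind.insert [DecidableEq V] {e : V → V → Prop} {B : Finset V} (h : Ind e K B) {y : V}
    (hy : ∀ b ∈ B, ¬ SB e K b y) : Ind e K (Insert.insert y B) := by
  intro b hb b' hb' hne
  rw [Finset.mem_insert] at hb hb'
  rcases hb with rfl | hb
  · rcases hb' with rfl | hb'
    · exact absurd rfl hne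
    · exact fun g => hy b' hb' (sb_symm g)
  · rcases hb' with rfl | hb'
    · exact hy b hb
    · exact h b hb b' hb' hne

/-- Adjacency between blocks: change of the representative. -/
theorem blk_adj (h : Cmp H f) (hKe : Conn H K) (hKf : Conn f K) {b u y : V} (hb : K b) (hu : K u)
    (hbu : SB H K b u) (hy : ¬ (K y ∧ SB H K b y)) : H b y ↔ H u y := by
  have hm := sb_mod h hKe hKf b
  exact ⟨fun g => hm b u y ⟨hb, Or.inl rfl⟩ ⟨hu, hbu⟩ hy g,
    fun g => hm u b y ⟨hu, hbu⟩ ⟨hb, Or.inl rfl⟩ hy g⟩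

theorem deg_K [Finite V] (h : Cmp H f) (hB : BlockDec Δ H) (hK : Mod H K)
    (hKf : Conn f K) {u : V} (hu : K u) (B : Finset V)
    (hBK : ∀ b ∈ B, K b ∧ H u b ∧ ¬ SB H K u b) (hI : Ind H K B) : B.card ≤ Δ := by
  classical
  rcases B.eq_empty_or_nonempty with rfl | ⟨b0, hb0⟩
  · simp
  obtain ⟨g1, g2, g3⟩ := hBK b0 hb0
  obtain ⟨β, ⟨p, q, hp, hq, hpq⟩, hc, hd⟩ := hB K ⟨u, b0, hu, g1, h.ne_e g2⟩
  have cls : ∀ a b, K a → K b → β a = β b → SB H K a b := by
    intro a b ha hb hab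
    refine Or.inr ⟨fun z => K z ∧ β z = β a, ?_, ⟨ha, rfl⟩, ⟨hb, hab.symm⟩, fun z hz => hz.1, ?_⟩
    · rintro v w y ⟨hv, hv'⟩ ⟨hw, hw'⟩ hy hvy
      by_cases hyK : K y
      · have hne : β v ≠ β y := by
          intro g
          exact hy ⟨hyK, by rw [← g, hv']⟩
        exact (hc v w y y hv hw hyK hyK (by rw [hv', hw']) rfl hne).1 hvy
      · exact hK v w y hv hw hyK hvy
    · by_cases hpa : β p = β a
      · exact ⟨q, hq, fun g => hpq (by rw [hpa, g.2])⟩
      · exact ⟨p, hp, fun g => hpa g.2⟩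
  rcases hd with hd | hd
  · exfalso
    obtain ⟨a, b, ha, hA, hb, hB', hab⟩ := conn_cut hKf (fun z => β z = β p) hp hq rfl
      (fun g => hpq g.symm)
    have hne : β a ≠ β b := by
      rw [hA]
      exact fun g => hB' g.symm
    exact (h.ef a b (h.ne_f hab)).1 (hd a b ha hb hne) hab
  · have hinj : Set.InjOn β (B : Set V) := by
      intro a ha b hb hab
      exact hI.eq ha hb (cls a b (hBK a ha).1 (hBK b hb).1 hab)
    have hsub : ((B.image β : Finset ℕ) : Set ℕ) ⊆ {n | n ≠ β u ∧ ∃ v, K v ∧ β v = n ∧ H u v} := by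
      intro n hn
      rw [Finset.mem_coe, Finset.mem_image] at hn
      obtain ⟨b, hb, rfl⟩ := hn
      obtain ⟨k1, k2, k3⟩ := hBK b hb
      exact ⟨fun g => k3 (cls u b hu k1 g.symm), b, k1, rfl, k2⟩
    have hfin : Set.Finite {n | n ≠ β u ∧ ∃ v, K v ∧ β v = n ∧ H u v} := by
      refine (Set.finite_range β).subset ?_
      rintro n ⟨_, v, _, rfl, _⟩
      exact ⟨v, rfl⟩
    have h1 := Set.ncard_le_ncard hsub hfin
    rw [Set.ncard_coe_finset, Finset.card_image_of_injOn hinj] at h1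
    exact h1.trans (hd u hu)

theorem deg_W [Finite V] (h : Cmp H f) (hB : BlockDec Δ H) (hW : Mod H W) (hc : Conn f W) {x : V}
    (hx : W x) (B : Finset V) (hBW : ∀ b ∈ B, W b ∧ H x b ∧ ¬ Bk H f W x b)
    (hI : ∀ b ∈ B, ∀ b' ∈ B, b ≠ b' → ¬ Bk H f W b b') : B.card ≤ Δ := by
  have hcp : ∀ b ∈ B, Cp H W x b := fun b hb => Cp.step hx (hBW b hb).1 (hBW b hb).2.1
  by_cases hk : Conn f (Cp H W x)
  · refine deg_K h hB (mod_cp hW x) hk (Cp.refl hx) B ?_ ?_
    · intro b hb
      exact ⟨hcp b hb, (hBW b hb).2.1, fun g => (hBW b hb).2.2 (Or.inr ⟨hc, hcp b hb, Or.inr g⟩)⟩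
    · intro b hb b' hb' hne hs
      refine hI b hb b' hb' hne (Or.inr ⟨hc, ((hcp b hb).symm h.se).trans (hcp b' hb'), Or.inr ?_⟩)
      rw [← (hcp b hb).eq h.se]
      exact hs
  · have : B = ∅ := by
      rw [Finset.eq_empty_iff_forall_notMem]
      intro b hb
      exact (hBW b hb).2.2 (Or.inr ⟨hc, hcp b hb, Or.inl hk⟩)
    rw [this]
    simp

/-! ### The closure -/

theorem cl_mono {n : ℕ} {x t z : V} (hz : Cl H n x t z) : Cl H (n + 1) x t z := Or.inl hz

theorem cl_sub (h : Cmp H f) (hW : Mod H W) {x t : V} (hx : W x) (ht : W t) :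
    ∀ n z, Cl H n x t z → W z := by
  intro n
  induction n with
  | zero =>
    rintro z (rfl | rfl)
    · exact hx
    · exact ht
  | succ n ih =>
    rintro z (hz | ⟨a, ha, hza, b, hb, hzb⟩)
    · exact ih z hz
    · by_contra hn
      exact hzb (h.se _ _ (hW a b z (ih a ha) (ih b hb) hn (h.se _ _ hza)))

theorem cl_grow (h : Cmp H f) (hK : Mod H K) (hKe : Conn H K) (hKf : Conn f K) {x t : V}
    (hx : K x) (ht : K t) (hxt : ¬ SB H K x t) (n : ℕ) :
    ∃ B : Finset V, x ∈ B ∧ t ∈ B ∧ (∀ b ∈ B, K b ∧ Cl H n x t b) ∧ Ind H K B ∧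
      B.card ≤ n + 2 ∧ (B.card = n + 2 ∨ ∀ y, K y → ∃ b ∈ B, SB H K b y) := by
  classical
  induction n with
  | zero =>
    have hne : x ≠ t := fun g => hxt (Or.inl g)
    refine ⟨{x, t}, by simp, by simp, ?_, ?_, ?_, ?_⟩
    · intro b hb
      rw [Finset.mem_insert, Finset.mem_singleton] at hb
      rcases hb with rfl | rfl
      · exact ⟨hx, Or.inl rfl⟩
      · exact ⟨ht, Or.inr rfl⟩
    · intro b hb b' hb' hbb
      rw [Finset.mem_insert, Finset.mem_singleton] at hb hb'
      rcases hb with rfl | rfl <;> rcases hb' with rfl | rfl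
      · exact absurd rfl hbb
      · exact hxt
      · exact fun g => hxt (sb_symm g)
      · exact absurd rfl hbb
    · rw [Finset.card_pair hne]
    · left
      rw [Finset.card_pair hne]
  | succ n ih =>
    obtain ⟨B, h1, h2, h3, h4, h5, h6⟩ := ih
    by_cases hcov : ∀ y, K y → ∃ b ∈ B, SB H K b y
    · exact ⟨B, h1, h2, fun b hb => ⟨(h3 b hb).1, cl_mono (h3 b hb).2⟩, h4, by omega, Or.inr hcov⟩
    have h6' : B.card = n + 2 := h6.resolve_right hcov
    push Not at hcov
    obtain ⟨y0, hy0, hy0'⟩ := hcov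
    let U : V → Prop := fun z => K z ∧ ∃ b ∈ B, SB H K b z
    have hU : ¬ Mod H U := by
      intro hm
      exact hxt (Or.inr ⟨U, hm, ⟨hx, x, h1, Or.inl rfl⟩, ⟨ht, t, h2, Or.inl rfl⟩, fun z hz => hz.1,
        y0, hy0, fun ⟨_, b, hb, g⟩ => hy0' b hb g⟩)
    unfold Mod at hU
    push Not at hU
    obtain ⟨u1, u2, y, ⟨k1, b1, hb1, s1⟩, ⟨k2, b2, hb2, s2⟩, hy, e1, e2⟩ := hU
    have hyK : K y := by
      by_contra hn
      exact e2 (hK u1 u2 y k1 k2 hn e1)
    have hyB : ∀ b ∈ B, ¬ SB H K b y := fun b hb g => hy ⟨hyK, b, hb, g⟩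
    have c1 : H b1 y := (blk_adj h hKe hKf (h3 b1 hb1).1 k1 s1 (fun g => hyB b1 hb1 g.2)).2 e1
    have c2 : ¬ H b2 y := fun g =>
      e2 ((blk_adj h hKe hKf (h3 b2 hb2).1 k2 s2 (fun g => hyB b2 hb2 g.2)).1 g)
    have hcl : Cl H (n + 1) x t y :=
      Or.inr ⟨b1, (h3 b1 hb1).2, h.se _ _ c1, b2, (h3 b2 hb2).2, fun g => c2 (h.se _ _ g)⟩
    have hyn : y ∉ B := fun g => hyB y g (Or.inl rfl)
    refine ⟨insert y B, Finset.mem_insert_of_mem h1, Finset.mem_insert_of_mem h2, ?_,
      h4.insert hyB, ?_, ?_⟩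
    · intro b hb
      rw [Finset.mem_insert] at hb
      rcases hb with rfl | hb
      · exact ⟨hyK, hcl⟩
      · exact ⟨(h3 b hb).1, cl_mono (h3 b hb).2⟩
    · rw [Finset.card_insert_of_notMem hyn]
      omega
    · left
      rw [Finset.card_insert_of_notMem hyn]
      omega

/-! ### The neighbours of a node -/

theorem dn_ser (h : Cmp H f) (hW : Mod H W) (hc : ¬ Conn f W) {x t : V} (hx : W x) (ht : W t)
    (hxt : ¬ Bk H f W x t) (R : ℕ) (d : V) : Dn H f R x t d ↔ Ne f W d := by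
  have hcl : ∀ n, Cl H n x t x ∧ Cl H n x t t := by
    intro n
    induction n with
    | zero => exact ⟨Or.inl rfl, Or.inr rfl⟩
    | succ n ih => exact ⟨cl_mono ih.1, cl_mono ih.2⟩
  constructor
  · intro hd
    have h1 := hd x (hcl R).1
    have h2 := hd t (hcl R).2
    have hdW : ¬ W d := by
      intro hdW
      exact hxt (Or.inl ⟨hc, (Cp.step hx hdW (h.sf _ _ h1)).trans (Cp.step hdW ht h2)⟩)
    refine ⟨hdW, fun w hw => ?_⟩
    exact h.sf _ _ (mod_cmp h hW x w d hx hw hdW (h.sf _ _ h1))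
  · rintro ⟨_, hd⟩ c hc'
    exact hd c (cl_sub h hW hx ht R c hc')

theorem dn_sp [Finite V] (h : Cmp H f) (hB : BlockDec Δ H) (hW : Mod H W) (hc : Conn f W)
    {x t : V} (hx : W x) (ht : W t) (hxt : ¬ Bk H f W x t) {R : ℕ} (hR : Δ ≤ R) (d : V) :
    Dn H H R x t d ↔ Ne H W d := by
  classical
  have hcl : ∀ n, Cl H n x t x ∧ Cl H n x t t := by
    intro n
    induction n with
    | zero => exact ⟨Or.inl rfl, Or.inr rfl⟩
    | succ n ih => exact ⟨cl_mono ih.1, cl_mono ih.2⟩
  constructor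
  · intro hd
    have h1 := hd x (hcl R).1
    have h2 := hd t (hcl R).2
    have hdW : ¬ W d := by
      intro hdW
      have hxd : Cp H W x d := Cp.step hx hdW (h.se _ _ h1)
      have hxt' : Cp H W x t := hxd.trans (Cp.step hdW ht h2)
      have hk : Conn f (Cp H W x) := by
        by_contra hk
        exact hxt (Or.inr ⟨hc, hxt', Or.inl hk⟩)
      have hsb : ¬ SB H (Cp H W x) x t := fun g => hxt (Or.inr ⟨hc, hxt', Or.inr g⟩)
      have hKe := conn_cp (W := W) h.se (x := x)
      have hKm := mod_cp hW x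
      obtain ⟨B, b1, b2, b3, b4, b5, b6⟩ := cl_grow h hKm hKe hk (Cp.refl hx) hxt' hsb R
      have hcard : B.card ≤ Δ + 1 := by
        have e1 : (B.filter fun b => ¬ SB H (Cp H W x) d b).card ≤ Δ := by
          refine deg_K h hB hKm hk hxd _ ?_ (b4.subset (Finset.filter_subset _ _))
          intro b hb
          rw [Finset.mem_filter] at hb
          exact ⟨(b3 b hb.1).1, hd b (b3 b hb.1).2, hb.2⟩
        have e2 : (B.filter fun b => SB H (Cp H W x) d b).card ≤ 1 := by
          rw [Finset.card_le_one]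
          intro a ha b hb
          rw [Finset.mem_filter] at ha hb
          exact b4.eq ha.1 hb.1 (sb_trans h hKe hk (sb_symm ha.2) hb.2)
        have e3 := Finset.card_filter_add_card_filter_not (s := B)
          (fun b => SB H (Cp H W x) d b)
        omega
      have hcov := b6.resolve_left (by omega)
      obtain ⟨w, hw, hdw⟩ : ∃ w, Cp H W x w ∧ ¬ SB H (Cp H W x) d w := by
        by_cases hdx : x = d
        · refine ⟨t, hxt', ?_⟩
          rw [← hdx]
          exact hsb
        · exact sb_ne h hKe hk hxd (Cp.refl hx) hdx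
      obtain ⟨a, b, ha, hA, hb, hB', hab⟩ := conn_cut hk (fun z => SB H (Cp H W x) d z) hxd hw
        (Or.inl rfl) hdw
      obtain ⟨b0, hb0, s0⟩ := hcov b hb
      have hdb0 : ¬ SB H (Cp H W x) d b0 := fun g => hB' (sb_trans h hKe hk g s0)
      have k1 : H d b0 := hd b0 (b3 b0 hb0).2
      have k2 : H a b0 := (blk_adj h hKe hk hxd ha hA (fun g => hdb0 g.2)).1 k1
      have k3 : H b a := (blk_adj h hKe hk (b3 b0 hb0).1 hb s0
        (fun g => hdb0 (sb_trans h hKe hk hA (sb_symm g.2)))).1 (h.se _ _ k2)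
      exact (h.ef a b (h.ne_f hab)).1 (h.se _ _ k3) hab
    refine ⟨hdW, fun w hw => ?_⟩
    exact h.se _ _ (hW x w d hx hw hdW (h.se _ _ h1))
  · rintro ⟨_, hd⟩ c hc'
    exact hd c (cl_sub h hW hx ht R c hc')

/-! ### The type of a node -/

theorem pts_mono {R n : ℕ} {x t u : V} (hp : PtS H f R n x t u) : PtS H f R (n + 1) x t u := by
  induction n generalizing u with
  | zero => exact Or.inl hp
  | succ n ih =>
    rcases hp with hp | ⟨w, h1, h2, h3⟩
    · exact Or.inl hp
    · exact Or.inr ⟨w, h1, h2, ih h3⟩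

theorem pts_mono' {R n m : ℕ} (hnm : n ≤ m) {x t u : V} (hp : PtS H f R n x t u) :
    PtS H f R m x t u := by
  induction hnm with
  | refl => exact hp
  | step _ ih => exact pts_mono ih

theorem ser_of (h : Cmp H f) (hW : Mod H W) (hc : ¬ Conn f W) {x t : V} (hx : W x) (ht : W t)
    (hxt : ¬ Bk H f W x t) (R L : ℕ) : Ser H f R L x t := by
  have key : ∀ n u, W u → PtS H f R n x t u → Cp f W u t := by
    intro n
    induction n with
    | zero =>
      intro u hu hp
      change u = t at hp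
      subst hp
      exact Cp.refl hu
    | succ n ih =>
      rintro u hu (hp | ⟨w, h1, h2, h3⟩)
      · subst hp
        exact Cp.refl hu
      · have hw := cl_sub h hW hx ht R w h1
        exact (Cp.step hu hw h2).trans (ih w hw h3)
  intro hp
  exact hxt (Or.inl ⟨hc, key L x hx hp⟩)

theorem not_ser_of [Finite V] (h : Cmp H f) (hB : BlockDec Δ H) (hW : Mod H W) (hc : Conn f W)
    {x t : V} (hx : W x) (ht : W t) (hxt : ¬ Bk H f W x t) {R L : ℕ} (hR : 2 * Δ ≤ R + 1)
    (hL : R + 2 ≤ L) : ¬ Ser H f R L x t := by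
  classical
  have hne : x ≠ t := by
    rintro rfl
    exact hxt (bk_refl hx)
  have hclt : ∀ n, Cl H n x t x ∧ Cl H n x t t := by
    intro n
    induction n with
    | zero => exact ⟨Or.inl rfl, Or.inr rfl⟩
    | succ n ih => exact ⟨cl_mono ih.1, cl_mono ih.2⟩
  unfold Ser
  rw [not_not]
  by_cases hH : H x t
  swap
  · have hf : f x t := (h.symm.ef x t hne).2 hH
    exact pts_mono' (n := 1) (by omega) (Or.inr ⟨t, (hclt R).2, hf, rfl⟩)
  have hxt' : Cp H W x t := Cp.step hx ht hH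
  have hk : Conn f (Cp H W x) := by
    by_contra hk
    exact hxt (Or.inr ⟨hc, hxt', Or.inl hk⟩)
  have hsb : ¬ SB H (Cp H W x) x t := fun g => hxt (Or.inr ⟨hc, hxt', Or.inr g⟩)
  have hKe := conn_cp (W := W) h.se (x := x)
  have hKm := mod_cp hW x
  obtain ⟨B, b1, b2, b3, b4, b5, b6⟩ := cl_grow h hKm hKe hk (Cp.refl hx) hxt' hsb R
  rcases b6 with b6 | hcov
  · have e1 : (B.filter fun b => H x b).card ≤ Δ := by
      refine deg_K h hB hKm hk (Cp.refl hx) _ ?_ (b4.subset (Finset.filter_subset _ _))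
      intro b hb
      rw [Finset.mem_filter] at hb
      exact ⟨(b3 b hb.1).1, hb.2, b4 x b1 b hb.1 (h.ne_e hb.2)⟩
    have e2 : (B.filter fun b => H t b).card ≤ Δ := by
      refine deg_K h hB hKm hk hxt' _ ?_ (b4.subset (Finset.filter_subset _ _))
      intro b hb
      rw [Finset.mem_filter] at hb
      exact ⟨(b3 b hb.1).1, hb.2, b4 t b2 b hb.1 (h.ne_e hb.2)⟩
    have e3 : ∃ b ∈ B, ¬ H x b ∧ ¬ H t b := by
      by_contra hn
      push Not at hn
      have hsub : B ⊆ (B.filter fun b => H x b) ∪ (B.filter fun b => H t b) := by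
        intro b hb
        rw [Finset.mem_union, Finset.mem_filter, Finset.mem_filter]
        by_cases g : H x b
        · exact Or.inl ⟨hb, g⟩
        · exact Or.inr ⟨hb, hn b hb g⟩
      have := (Finset.card_le_card hsub).trans (Finset.card_union_le _ _)
      omega
    obtain ⟨b, hb, g1, g2⟩ := e3
    have hbx : x ≠ b := by
      rintro rfl
      exact g2 (h.se _ _ hH)
    have hbt : t ≠ b := by
      rintro rfl
      exact g1 hH
    have f1 : f x b := (h.symm.ef x b hbx).2 g1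
    have f2 : f b t := h.sf _ _ ((h.symm.ef t b hbt).2 g2)
    refine pts_mono' (n := 2) (by omega) (Or.inr ⟨b, (b3 b hb).2, f1, Or.inr ⟨t, (hclt R).2, f2, rfl⟩⟩)
  · have key : ∀ n, PtS H f R n x t x ∨ ∃ P : Finset V, P ⊆ B ∧ t ∈ P ∧ P.card = n + 1 ∧
        ∀ p ∈ P, PtS H f R n x t p := by
      intro n
      induction n with
      | zero =>
        refine Or.inr ⟨{t}, ?_, Finset.mem_singleton_self t, Finset.card_singleton t, ?_⟩
        · intro z hz
          rw [Finset.mem_singleton] at hz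
          subst hz
          exact b2
        · intro z hz
          rw [Finset.mem_singleton] at hz
          exact hz
      | succ n ih =>
        rcases ih with ih | ⟨P, p1, p2, p3, p4⟩
        · exact Or.inl (pts_mono ih)
        by_cases hxP : x ∈ P
        · exact Or.inl (pts_mono (p4 x hxP))
        obtain ⟨a, b, ha, hA, hb, hB', hab⟩ := conn_cut hk
          (fun z => ∃ p ∈ P, SB H (Cp H W x) p z) hxt' (Cp.refl hx) ⟨t, p2, Or.inl rfl⟩
          (fun ⟨p, hp, g⟩ => hxP (by rw [← b4.eq (p1 hp) b1 g]; exact hp))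
        obtain ⟨p, hp, sp⟩ := hA
        obtain ⟨b0, hb0, s0⟩ := hcov b hb
        have hb0P : b0 ∉ P := fun g => hB' ⟨b0, g, s0⟩
        have hpb : p ≠ b0 := fun g => hb0P (g ▸ hp)
        have hnsb : ¬ SB H (Cp H W x) p b0 := b4 p (p1 hp) b0 hb0 hpb
        have hfp : ¬ H p b0 := by
          intro g
          have k1 : H a b0 := (blk_adj h hKe hk (b3 p (p1 hp)).1 ha sp (fun g => hnsb g.2)).1 g
          have k2 : H b a := (blk_adj h hKe hk (b3 b0 hb0).1 hb s0
            (fun g => hnsb (sb_trans h hKe hk sp (sb_symm g.2)))).1 (h.se _ _ k1)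
          exact (h.ef a b (h.ne_f hab)).1 (h.se _ _ k2) hab
        have hf0 : f b0 p := h.sf _ _ ((h.symm.ef p b0 hpb).2 hfp)
        refine Or.inr ⟨insert b0 P, ?_, Finset.mem_insert_of_mem p2, ?_, ?_⟩
        · intro z hz
          rw [Finset.mem_insert] at hz
          rcases hz with rfl | hz
          · exact hb0
          · exact p1 hz
        · rw [Finset.card_insert_of_notMem hb0P, p3]
        · intro z hz
          rw [Finset.mem_insert] at hz
          rcases hz with rfl | hz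
          · exact Or.inr ⟨p, (b3 p (p1 hp)).2, hf0, p4 p hp⟩
          · exact pts_mono (p4 z hz)
    rcases key B.card with g | ⟨P, p1, _, p3, _⟩
    · exact pts_mono' (by omega) g
    · exfalso
      have := Finset.card_le_card p1
      omega

end Q

end P1346e8
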