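import Pool.Agent.Lib.P1346Q.Corr

/-!
# The order of the vertices
-/

set_option autoImplicit false

namespace P1346e8

namespace Q

variable {V : Type} {f H lt : V → V → Prop} {Δ R L : ℕ}

theorem kf_iff [Finite V] (h : Cmp H f) (hB : BlockDec Δ H) (hR : 2 * Δ ≤ R)
    (hL : R + 2 ≤ L) {i : ℕ} {x y : V} (hs : Sep H f i x y) (z : V) :
    Kf H f R L x y z ↔ Wn H f (i + 1) x z := by
  unfold Kf
  constructor
  · rintro (rfl | g)
    · exact wn_self _ _
    · by_cases hz : x = z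
      · subst hz
        exact wn_self _ _
      · obtain ⟨j, hj⟩ := exists_sep h hz
        rw [tf_iff h hB hR hL hj] at g
        by_contra hn
        have hji : j ≤ i := by
          by_contra hji
          exact hn (wn_mono (by omega) hj.1)
        exact g (wn_mono hji hs.1)
  · intro g
    by_cases hz : x = z
    · exact Or.inl hz.symm
    · obtain ⟨j, hj⟩ := exists_sep h hz
      right
      rw [tf_iff h hB hR hL hj]
      intro g2
      have hij : i + 1 ≤ j := by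
        by_contra hij
        exact hj.2 (wn_mono (by omega) g)
      exact hs.2 (wn_mono hij g2)

/-- The smallest number of an element of the node. -/
noncomputable def mn (H f : V → V → Prop) (ν : V → ℕ) (i : ℕ) (x : V) : ℕ :=
  sInf {n | ∃ z, Wn H f i x z ∧ ν z = n}

theorem mn_mem (ν : V → ℕ) (i : ℕ) (x : V) : ∃ z, Wn H f i x z ∧ ν z = mn H f ν i x :=
  Nat.sInf_mem (s := {n | ∃ z, Wn H f i x z ∧ ν z = n}) ⟨ν x, x, wn_self i x, rfl⟩

theorem mn_le (ν : V → ℕ) {i : ℕ} {x z : V} (hz : Wn H f i x z) : mn H f ν i x ≤ ν z :=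
  Nat.sInf_le (s := {n | ∃ z, Wn H f i x z ∧ ν z = n}) ⟨z, hz, rfl⟩

theorem mn_eq (h : Cmp H f) (ν : V → ℕ) {i : ℕ} {x y : V} (hxy : Wn H f i x y) :
    mn H f ν i x = mn H f ν i y := by
  unfold mn
  rw [wn_eq h hxy]

theorem mn_ne (h : Cmp H f) {ν : V → ℕ} (hνi : ∀ a b, ν a = ν b → a = b) {i : ℕ} {x y : V}
    (hxy : ¬ Wn H f i x y) : mn H f ν i x ≠ mn H f ν i y := by
  intro he
  obtain ⟨z, h1, h2⟩ := mn_mem (H := H) (f := f) ν i x
  obtain ⟨z', h1', h2'⟩ := mn_mem (H := H) (f := f) ν i y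
  have : z = z' := hνi _ _ (by rw [h2, h2', he])
  subst this
  exact hxy (wn_trans h h1 (wn_symm h h1'))

/-- The order described by levels. -/
def Rr (H f : V → V → Prop) (ν : V → ℕ) (x y : V) : Prop :=
  ∃ i, Sep H f i x y ∧ mn H f ν (i + 1) x < mn H f ν (i + 1) y

theorem rho_iff [Finite V] (h : Cmp H f) (hB : BlockDec Δ H) (hR : 2 * Δ ≤ R)
    (hL : R + 2 ≤ L) {ν : V → ℕ} (hν : ∀ a b, ν a < ν b ↔ lt a b) (x y : V) :
    rho H f R L lt x y ↔ Rr H f ν x y := by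
  constructor
  · rintro ⟨hne, a, ha, hb⟩
    obtain ⟨i, hi⟩ := exists_sep h hne
    refine ⟨i, hi, ?_⟩
    rw [kf_iff h hB hR hL hi] at ha
    obtain ⟨z, h1, h2⟩ := mn_mem (H := H) (f := f) ν (i + 1) y
    have h3 := hb z ((kf_iff h hB hR hL (hi.symm h) z).2 h1)
    rw [← hν] at h3
    have h4 := mn_le (H := H) (f := f) ν ha
    omega
  · rintro ⟨i, hi, hlt⟩
    obtain ⟨a, h1, h2⟩ := mn_mem (H := H) (f := f) ν (i + 1) x
    refine ⟨hi.ne, a, (kf_iff h hB hR hL hi a).2 h1, ?_⟩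
    intro b hb
    rw [kf_iff h hB hR hL (hi.symm h)] at hb
    rw [← hν]
    have h4 := mn_le (H := H) (f := f) ν hb
    omega

section order

variable {ν : V → ℕ}

theorem rr_irrefl (x : V) : ¬ Rr H f ν x x := by
  rintro ⟨i, hi, _⟩
  exact hi.ne rfl

theorem rr_trans (h : Cmp H f) {x y z : V} (h1 : Rr H f ν x y) (h2 : Rr H f ν y z) :
    Rr H f ν x z := by
  obtain ⟨i, hi, hi'⟩ := h1
  obtain ⟨j, hj, hj'⟩ := h2
  rcases lt_trichotomy i j with g | rfl | g
  · have hyz : Wn H f (i + 1) y z := wn_mono g hj.1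
    refine ⟨i, ⟨wn_trans h hi.1 (wn_sub hyz), fun g2 => hi.2 (wn_trans h g2 (wn_symm h hyz))⟩, ?_⟩
    rw [← mn_eq h ν hyz]
    exact hi'
  · refine ⟨i, ⟨wn_trans h hi.1 hj.1, fun g2 => ?_⟩, by omega⟩
    have := mn_eq h ν g2
    omega
  · have hxy : Wn H f (j + 1) x y := wn_mono g hi.1
    refine ⟨j, ⟨wn_trans h (wn_sub hxy) hj.1,
      fun g2 => hj.2 (wn_trans h (wn_symm h hxy) g2)⟩, ?_⟩
    rw [mn_eq h ν hxy]
    exact hj'

theorem rr_total [Finite V] (h : Cmp H f) (hνi : ∀ a b, ν a = ν b → a = b) {x y : V}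
    (hne : x ≠ y) : Rr H f ν x y ∨ Rr H f ν y x := by
  obtain ⟨i, hi⟩ := exists_sep h hne
  rcases lt_or_gt_of_ne (mn_ne h hνi hi.2) with g | g
  · exact Or.inl ⟨i, hi, g⟩
  · exact Or.inr ⟨i, hi.symm h, g⟩

theorem rr_asymm (h : Cmp H f) {x y : V} (h1 : Rr H f ν x y) : ¬ Rr H f ν y x :=
  fun h2 => rr_irrefl x (rr_trans h h1 h2)

theorem rr_strict [Finite V] (h : Cmp H f) (hνi : ∀ a b, ν a = ν b → a = b) :
    StrictLin (fun _ => True) (Rr H f ν) :=
  ⟨fun x _ => rr_irrefl x, fun _ _ _ _ _ _ => rr_trans h, fun _ _ _ _ hne => rr_total h hνi hne⟩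

/-- The nodes are convex. -/
theorem rr_convex [Finite V] (h : Cmp H f) {i : ℕ} {x y z : V}
    (hxy : Rr H f ν x y) (hyz : Rr H f ν y z) (hxz : Wn H f i x z) : Wn H f i x y := by
  by_contra hn
  obtain ⟨j, hj, hj'⟩ := hxy
  obtain ⟨k, hk, hk'⟩ := hyz
  have hji : j < i := by
    by_contra g
    exact hn (wn_mono (by omega) hj.1)
  have hxz' : Wn H f (j + 1) x z := wn_mono hji hxz
  have hs : Sep H f j y z :=
    ⟨wn_trans h (wn_symm h hj.1) (wn_sub hxz'), fun g => hj.2 (wn_trans h hxz' (wn_symm h g))⟩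
  have hjk : j = k := hs.uniq hk
  subst hjk
  have := mn_eq h ν hxz'
  omega

end order

end Q

end P1346e8
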